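import Pool.Agent.P.MP_7578b2_co.All.Strict

/-!
Every distance below `arcosh 7` is forced by strict crossings and strict disjointness.
-/

namespace Pool.Agent.P.MP_7578b2_co.All

open Real Filter Topology

theorem forced_upper {a b : ℝ} (h : a < b) (h' : b - a < arcosh 7) :
    FR B B (fun φ => Dst φ a b < arcosh 7) := by
  have := (forced_upper0 (τ := (b - a) / 2) (by linarith)
    (cosh_lt_seven (by linarith) (by linarith))).iso (boost_iso ((a + b) / 2))
  refine this.mono fun φ t => ?_
  rw [Dst_boost] at t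
  convert t using 2 <;> ring

theorem forced_between {a e b : ℝ} (h1 : a < e) (h2 : e < b) (h' : b - a < arcosh 7) :
    FR B B (fun φ => Dst φ a e + Dst φ e b ≤ Dst φ a b) := by
  have := (forced_between0 (τ := (b - a) / 2) (e := e - (a + b) / 2)
    (cosh_lt_seven (by linarith) (by linarith)) (by linarith) (by linarith)).iso
    (boost_iso ((a + b) / 2))
  refine this.mono fun φ t => ?_
  simp only [Dst_boost] at t
  rw [show -((b - a) / 2) + (a + b) / 2 = a by ring, show e - (a + b) / 2 + (a + b) / 2 = e by ring,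
    show (b - a) / 2 + (a + b) / 2 = b by ring] at t
  exact t

theorem forced_lower {a d : ℝ} {m : ℕ} (hm : 2 ≤ m) (h : ell m < d) (h' : cosh d ≤ 3 / 2) :
    FR B B (fun φ => ell m ≤ Dst φ a (a + d)) := by
  have d0 : 0 < d := (ell_pos hm).trans h
  have c : 2 / cos (π / (3 * m)) ^ 2 - 1 < cosh d := by
    have := (cosh_lt_cosh (x := ell m) (y := d)).mpr
      (by rwa [abs_of_pos d0, abs_of_pos (ell_pos hm)])
    rwa [ell, cosh_arcosh (ell_arg hm).le] at this
  have := (forced_lower0 (τ := d / 2) hm (by linarith) (by rwa [show 2 * (d / 2) = d by ring])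
    (by rwa [show 2 * (d / 2) = d by ring])).iso (boost_iso (a + d / 2))
  refine this.mono fun φ t => ?_
  rw [Dst_boost, show -(d / 2) + (a + d / 2) = a by ring,
    show d / 2 + (a + d / 2) = a + d by ring] at t
  exact t

theorem forced_chain {a d : ℝ} {m : ℕ} (hm : 2 ≤ m) (h : ell m < d) (h' : cosh d ≤ 3 / 2)
    (N : ℕ) (hN : (N + 1) * d < arcosh 7) :
    FR B B (fun φ => (N + 1) * ell m ≤ Dst φ a (a + (N + 1) * d)) := by
  have d0 : 0 < d := (ell_pos hm).trans h
  induction N with
  | zero => simpa using forced_lower hm h h'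
  | succ N ih =>
    push_cast at hN ⊢
    have N0 : 0 < ((N : ℝ) + 1) * d := by positivity
    have f1 := ih (by linarith)
    have f2 := forced_lower (a := a + (N + 1) * d) hm h h'
    have f3 := forced_between (a := a) (e := a + (N + 1) * d) (b := a + (N + 1 + 1) * d)
      (by linarith) (by linarith) (by linarith)
    refine ((f1.and f2).and f3).mono fun φ t => ?_
    obtain ⟨⟨t1, t2⟩, t3⟩ := t
    rw [show a + (N + 1) * d + d = a + (N + 1 + 1) * d by ring] at t2
    linarith

theorem forced_ge_eps {a t ε : ℝ} (ht : 0 < t) (ht' : t < arcosh 7) (hε : 0 < ε) :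
    FR B B (fun φ => t - ε ≤ Dst φ a (a + t)) := by
  have d0 : 0 < arcosh (3 / 2) := arcosh_pos (by norm_num)
  obtain ⟨m, hm, hl⟩ := ell_small (ε := min ε (min (t / 2) (arcosh (3 / 2) / 2))) (by positivity)
  have l0 := ell_pos hm
  have l1 : ell m < ε := lt_of_lt_of_le hl (min_le_left _ _)
  have l2 : ell m < t / 2 := lt_of_lt_of_le hl ((min_le_right _ _).trans (min_le_left _ _))
  have l3 : ell m < arcosh (3 / 2) / 2 :=
    lt_of_lt_of_le hl ((min_le_right _ _).trans (min_le_right _ _))
  obtain ⟨N, n1, n2⟩ : ∃ N : ℕ, (N + 1) * ell m < t ∧ t ≤ (N + 2) * ell m := by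
    have c1 := Nat.le_ceil (t / ell m)
    have c2 := Nat.ceil_lt_add_one (show 0 ≤ t / ell m by positivity)
    have c3 : (2 : ℝ) < t / ell m := by rw [lt_div_iff₀ l0]; linarith
    have c4 : 2 ≤ ⌈t / ell m⌉₊ := by
      have : (2 : ℝ) ≤ (⌈t / ell m⌉₊ : ℕ) := by linarith
      exact_mod_cast this
    obtain ⟨N, hN⟩ := Nat.exists_eq_add_of_le c4
    rw [hN] at c1 c2
    push_cast at c1 c2
    refine ⟨N, ?_, ?_⟩
    · rw [← lt_div_iff₀ l0]; linarith
    · rw [← div_le_iff₀ l0]; linarith
  have N0 : (0 : ℝ) < N + 1 := by positivity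
  have e : (N + 1) * (t / (N + 1)) = t := by field_simp
  have f := forced_chain (a := a) (d := t / (N + 1)) hm (by rw [lt_div_iff₀ N0]; linarith)
    (by
      have h1 : t / (N + 1) ≤ arcosh (3 / 2) := by
        rw [div_le_iff₀ N0]; nlinarith [(Nat.cast_nonneg N : (0 : ℝ) ≤ N)]
      have := (cosh_le_cosh (x := t / (N + 1)) (y := arcosh (3 / 2))).mpr
        (by rwa [abs_of_pos (by positivity), abs_of_pos d0])
      rwa [cosh_arcosh (by norm_num)] at this) N (by rwa [e])
  rw [e] at f
  exact f.mono fun φ h => by linarith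

theorem forced_ge {a t : ℝ} (ht : 0 < t) (ht' : t < arcosh 7) :
    FR B B (fun φ => t ≤ Dst φ a (a + t)) := by
  refine (FR.all fun n : ℕ => forced_ge_eps (a := a) ht ht'
    (Nat.one_div_pos_of_nat (n := n))).mono fun φ h => ?_
  by_contra hc
  obtain ⟨n, hn⟩ := exists_nat_one_div_lt (sub_pos.mpr (not_le.mp hc))
  linarith [h n]

theorem forced_le {t : ℝ} (ht : 0 < t) (ht' : t < arcosh 7) :
    FR B B (fun φ => Dst φ 0 t ≤ t) := by
  have key : ∀ n : ℕ, FR B B (fun φ => Dst φ 0 t ≤ t + (arcosh 7 - t) / 2 * (1 / (n + 1))) := by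
    intro n
    have q0 : (0 : ℝ) < 1 / (n + 1) := Nat.one_div_pos_of_nat
    have q1 : (1 : ℝ) / (n + 1) ≤ 1 := by
      rw [div_le_one (by positivity)]; linarith [(Nat.cast_nonneg n : (0 : ℝ) ≤ n)]
    set η := (arcosh 7 - t) / 2 * (1 / (n + 1)) with hη
    have η0 : 0 < η := mul_pos (by linarith) q0
    have η1 : η ≤ (arcosh 7 - t) / 2 := mul_le_of_le_one_right (by linarith) q1
    have f1 := forced_upper (a := 0) (b := arcosh 7 - η) (by linarith) (by linarith)
    have f2 := forced_between (a := 0) (e := t) (b := arcosh 7 - η) ht (by linarith) (by linarith)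
    have f3 := forced_ge (a := t) (t := arcosh 7 - η - t) (by linarith) (by linarith)
    refine ((f1.and f2).and f3).mono fun φ h => ?_
    obtain ⟨⟨t1, t2⟩, t3⟩ := h
    rw [show t + (arcosh 7 - η - t) = arcosh 7 - η by ring] at t3
    linarith
  refine (FR.all key).mono fun φ h => ?_
  by_contra hc
  have p : 0 < (arcosh 7 - t) / 2 := by linarith
  obtain ⟨n, hn⟩ := exists_nat_one_div_lt (div_pos (sub_pos.mpr (not_le.mp hc)) p)
  have := h n
  rw [lt_div_iff₀ p] at hn
  linarith

theorem forced_eq {t : ℝ} (ht : 0 < t) (ht' : t < arcosh 7) :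
    FR B B (fun φ => Dst φ 0 t = t) := by
  refine ((forced_le ht ht').and (forced_ge (a := 0) ht ht')).mono fun φ h => ?_
  have := h.2
  rw [zero_add] at this
  exact le_antisymm h.1 this

end Pool.Agent.P.MP_7578b2_co.All
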