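import Pool.Agent.P.MP_7578b2_co.All.Step

/-!
The dictionary between unit spacelike vectors and hyperplane slices of the closed unit ball.
-/

namespace Pool.Agent.P.MP_7578b2_co.All

variable {E : Type} [NormedAddCommGroup E] [InnerProductSpace ℝ E]

/-- The slice of the closed unit ball modelled by `v`. -/
def slice (v : E × ℝ) : Set E := Metric.closedBall 0 1 ∩ {q | inner ℝ v.1 q = v.2}

theorem slice_meet_iff {v w : E × ℝ} (hv : bl v v = 1) (hw : bl w w = 1) :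
    (slice v ∩ slice w).Nonempty ↔ |bl v w| ≤ 1 := by
  constructor
  · rintro ⟨q, ⟨q1, q2⟩, -, q3⟩
    rw [mem_closedBall_zero_iff] at q1
    simp only [Set.mem_ofPred_eq] at q2 q3
    refine meet_of_pt hv hw (p := (q, 1)) ⟨one_pos, ?_⟩ ?_ ?_
    · rw [bl_self]; nlinarith [norm_nonneg q]
    · simp [bl, q2]
    · simp [bl, q3]
  · intro h
    obtain ⟨p, p1, p2, p3⟩ := meet_pt hv hw h
    have p0 := p1.1
    have hb : p.2⁻¹ • p.1 ∈ Metric.closedBall (0 : E) 1 := by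
      rw [mem_closedBall_zero_iff, norm_smul, norm_inv, Real.norm_of_nonneg p0.le,
        inv_mul_le_iff₀ p0, mul_one]
      exact p1.norm_le
    unfold bl at p2 p3
    refine ⟨p.2⁻¹ • p.1, ⟨hb, ?_⟩, hb, ?_⟩ <;>
      simp only [Set.mem_ofPred_eq, real_inner_smul_right] <;> field_simp <;> linarith

theorem fst_ne_zero {v : E × ℝ} (hv : bl v v = 1) : v.1 ≠ 0 := fun e => by
  rw [bl_self, e, norm_zero] at hv
  nlinarith [sq_nonneg v.2]

theorem exists_vec {n : E} {c : ℝ} (hn : n ≠ 0) {p q : E} (hpq : p ≠ q)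
    (hp : p ∈ Metric.closedBall 0 1 ∩ {q | inner ℝ n q = c})
    (hq : q ∈ Metric.closedBall 0 1 ∩ {q | inner ℝ n q = c}) :
    ∃ v : E × ℝ, bl v v = 1 ∧ slice v = Metric.closedBall 0 1 ∩ {q | inner ℝ n q = c} := by
  obtain ⟨p1, p2⟩ := hp
  obtain ⟨q1, q2⟩ := hq
  rw [mem_closedBall_zero_iff] at p1 q1
  simp only [Set.mem_ofPred_eq] at p2 q2
  have n0 := norm_pos_iff.mpr hn
  have d0 := norm_pos_iff.mpr (sub_ne_zero.mpr hpq)
  have par := parallelogram_law_with_norm ℝ p q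
  have m1 : ‖p + q‖ < 2 := by
    apply lt_of_pow_lt_pow_left₀ 2 (by norm_num)
    nlinarith [norm_nonneg p, norm_nonneg q]
  have m2 : |2 * c| ≤ ‖n‖ * ‖p + q‖ := by
    rw [show 2 * c = inner ℝ n (p + q) by rw [inner_add_right, p2, q2]; ring]
    exact abs_real_inner_le_norm _ _
  have m3 : |c| < ‖n‖ := by
    rw [abs_mul, abs_two] at m2
    nlinarith
  have lt : 0 < ‖n‖ ^ 2 - c ^ 2 := by
    have := pow_lt_pow_left₀ m3 (abs_nonneg _) (two_ne_zero)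
    rw [sq_abs] at this; linarith
  have r0 := Real.sqrt_pos.mpr lt
  have r2 := Real.sq_sqrt lt.le
  set r := √(‖n‖ ^ 2 - c ^ 2)
  refine ⟨r⁻¹ • (n, c), ?_, ?_⟩
  · rw [bl_smul_left, bl_smul_right, bl_self, ← r2]; field_simp
  · unfold slice
    congr 1
    ext x
    simp only [Set.mem_ofPred_eq, Prod.smul_fst, Prod.smul_snd, real_inner_smul_left, smul_eq_mul]
    exact mul_right_inj' (inv_ne_zero r0.ne')

theorem exists_nbrs {n : ℕ} {v : EuclideanSpace ℝ (Fin (n + 2)) × ℝ} (hv : bl v v = 1) :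
    ∃ n1 n2 : EuclideanSpace ℝ (Fin (n + 2)) × ℝ, bl n1 n1 = 1 ∧ bl n2 n2 = 1 ∧
      |bl v n1| ≤ 1 ∧ |bl v n2| ≤ 1 ∧ ¬ |bl n1 n2| ≤ 1 := by
  obtain ⟨w, T, h1, h2, h3, h4, h5⟩ := exists_frame hv
  refine ⟨(5 / 4 : ℝ) • w + (3 / 4 : ℝ) • T, (-(5 / 4) : ℝ) • w + (3 / 4 : ℝ) • T,
    ?_, ?_, ?_, ?_, ?_⟩ <;>
    simp only [bl_add_left, bl_add_right, bl_smul_left, bl_smul_right, h1, h2, h3, h4, h5,
      bl_comm T w] <;> norm_num [abs_le]

end Pool.Agent.P.MP_7578b2_co.All
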