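import Mathlib

/-!
Lorentz space over a real inner product space: unit spacelike vectors model hyperplane slices of
the unit ball, future causal vectors model points of the closed ball.
-/

namespace Pool.Agent.P.MP_7578b2_co.All

variable {E : Type} [NormedAddCommGroup E] [InnerProductSpace ℝ E]

/-- The Lorentz form on `E × ℝ`. -/
noncomputable def bl (v w : E × ℝ) : ℝ := inner ℝ v.1 w.1 - v.2 * w.2

theorem bl_comm (v w : E × ℝ) : bl v w = bl w v := by
  unfold bl; rw [real_inner_comm]; ring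

@[simp] theorem bl_add_left (u v w : E × ℝ) : bl (u + v) w = bl u w + bl v w := by
  simp only [bl, Prod.fst_add, Prod.snd_add, inner_add_left]; ring
@[simp] theorem bl_add_right (u v w : E × ℝ) : bl w (u + v) = bl w u + bl w v := by
  simp only [bl, Prod.fst_add, Prod.snd_add, inner_add_right]; ring
@[simp] theorem bl_sub_left (u v w : E × ℝ) : bl (u - v) w = bl u w - bl v w := by
  simp only [bl, Prod.fst_sub, Prod.snd_sub, inner_sub_left]; ring
@[simp] theorem bl_sub_right (u v w : E × ℝ) : bl w (u - v) = bl w u - bl w v := by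
  simp only [bl, Prod.fst_sub, Prod.snd_sub, inner_sub_right]; ring
@[simp] theorem bl_neg_left (v w : E × ℝ) : bl (-v) w = -bl v w := by
  simp only [bl, Prod.fst_neg, Prod.snd_neg, inner_neg_left]; ring
@[simp] theorem bl_neg_right (v w : E × ℝ) : bl w (-v) = -bl w v := by
  simp only [bl, Prod.fst_neg, Prod.snd_neg, inner_neg_right]; ring
@[simp] theorem bl_smul_left (c : ℝ) (v w : E × ℝ) : bl (c • v) w = c * bl v w := by
  simp only [bl, Prod.smul_fst, Prod.smul_snd, real_inner_smul_left, smul_eq_mul]; ring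
@[simp] theorem bl_smul_right (c : ℝ) (v w : E × ℝ) : bl w (c • v) = c * bl w v := by
  simp only [bl, Prod.smul_fst, Prod.smul_snd, real_inner_smul_right, smul_eq_mul]; ring

theorem bl_self (v : E × ℝ) : bl v v = ‖v.1‖ ^ 2 - v.2 ^ 2 := by
  unfold bl; rw [real_inner_self_eq_norm_sq]; ring

/-- Future causal nonzero vector. -/
def Fu (p : E × ℝ) : Prop := 0 < p.2 ∧ bl p p ≤ 0

theorem Fu.norm_le {p : E × ℝ} (h : Fu p) : ‖p.1‖ ≤ p.2 := by
  have := h.2
  rw [bl_self] at this
  exact le_of_sq_le_sq' h.1.le (by linarith)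
where le_of_sq_le_sq' {a b : ℝ} (hb : 0 ≤ b) (h : a ^ 2 ≤ b ^ 2) : a ≤ b :=
  le_trans (le_abs_self a) (abs_le_of_sq_le_sq' h hb |> fun t => abs_le.mpr t)

theorem timelike {u : E × ℝ} (h : bl u u < 0) :
    (∀ p, Fu p → bl u p < 0) ∨ ∀ p, Fu p → 0 < bl u p := by
  rw [bl_self] at h
  have key : ∀ p : E × ℝ, Fu p → |inner ℝ u.1 p.1| < |u.2| * p.2 := fun p hp => by
    have h1 : ‖u.1‖ < |u.2| := by
      apply lt_of_pow_lt_pow_left₀ 2 (abs_nonneg _)
      rw [sq_abs]; linarith
    calc |inner ℝ u.1 p.1| ≤ ‖u.1‖ * ‖p.1‖ := abs_real_inner_le_norm _ _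
      _ ≤ ‖u.1‖ * p.2 := mul_le_mul_of_nonneg_left hp.norm_le (norm_nonneg _)
      _ < |u.2| * p.2 := mul_lt_mul_of_pos_right h1 hp.1
  rcases le_total 0 u.2 with t | t
  · left
    intro p hp
    have := key p hp
    rw [abs_of_nonneg t] at this
    unfold bl; linarith [le_abs_self (inner ℝ u.1 p.1)]
  · right
    intro p hp
    have := key p hp
    rw [abs_of_nonpos t] at this
    unfold bl; linarith [neg_abs_le (inner ℝ u.1 p.1)]

theorem causal {u : E × ℝ} (h : bl u u ≤ 0) :
    (∀ p, Fu p → bl u p ≤ 0) ∨ ∀ p, Fu p → 0 ≤ bl u p := by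
  rw [bl_self] at h
  have key : ∀ p : E × ℝ, Fu p → |inner ℝ u.1 p.1| ≤ |u.2| * p.2 := fun p hp => by
    have h1 : ‖u.1‖ ≤ |u.2| := by
      apply le_of_pow_le_pow_left₀ (n := 2) (by norm_num) (abs_nonneg _)
      rw [sq_abs]; linarith
    calc |inner ℝ u.1 p.1| ≤ ‖u.1‖ * ‖p.1‖ := abs_real_inner_le_norm _ _
      _ ≤ ‖u.1‖ * p.2 := mul_le_mul_of_nonneg_left hp.norm_le (norm_nonneg _)
      _ ≤ |u.2| * p.2 := mul_le_mul_of_nonneg_right h1 hp.1.le
  rcases le_total 0 u.2 with t | t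
  · left
    intro p hp
    have := key p hp
    rw [abs_of_nonneg t] at this
    unfold bl; linarith [le_abs_self (inner ℝ u.1 p.1)]
  · right
    intro p hp
    have := key p hp
    rw [abs_of_nonpos t] at this
    unfold bl; linarith [neg_abs_le (inner ℝ u.1 p.1)]

theorem bl_e_left (v : E × ℝ) : bl ((0 : E), (1 : ℝ)) v = -v.2 := by simp [bl]
theorem bl_e_right (v : E × ℝ) : bl v ((0 : E), (1 : ℝ)) = -v.2 := by simp [bl]

/-- Two strictly crossing slices have a common interior point. -/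
theorem cross_pt {v w : E × ℝ} (hv : bl v v = 1) (hw : bl w w = 1) (h : |bl v w| < 1) :
    ∃ p : E × ℝ, 0 < p.2 ∧ bl p p < 0 ∧ bl v p = 0 ∧ bl w p = 0 := by
  set b := bl v w with hb
  have hb' : bl w v = b := bl_comm _ _
  have d0 : 0 < 1 - b ^ 2 := by have := abs_lt.mp h; nlinarith
  set α := (v.2 - b * w.2) / (1 - b ^ 2) with hα
  set β := (w.2 - b * v.2) / (1 - b ^ 2) with hβ
  have e1 : α + b * β = v.2 := by rw [hα, hβ]; field_simp; ring
  have e2 : b * α + β = w.2 := by rw [hα, hβ]; field_simp; ring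
  have q : 0 ≤ α * v.2 + β * w.2 := by
    rw [← e1, ← e2]
    nlinarith [sq_nonneg (α + b * β), mul_nonneg d0.le (sq_nonneg β)]
  have p1 : bl v (((0 : E), (1 : ℝ)) + α • v + β • w) = 0 := by
    simp only [bl_add_right, bl_smul_right, bl_e_right, hv, ← hb]; linarith
  have p2 : bl w (((0 : E), (1 : ℝ)) + α • v + β • w) = 0 := by
    simp only [bl_add_right, bl_smul_right, bl_e_right, hw, hb']; linarith
  refine ⟨((0 : E), (1 : ℝ)) + α • v + β • w, ?_, ?_, p1, p2⟩
  · simp only [Prod.snd_add, Prod.smul_snd, smul_eq_mul]; linarith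
  · rw [bl_add_left, bl_add_left, bl_smul_left, bl_smul_left, p1, p2, bl_e_left]
    simp only [Prod.snd_add, Prod.smul_snd, smul_eq_mul]; linarith

theorem self_pt {v : E × ℝ} (hv : bl v v = 1) : ∃ p, Fu p ∧ bl v p = 0 := by
  have p1 : bl v (((0 : E), (1 : ℝ)) + v.2 • v) = 0 := by
    simp only [bl_add_right, bl_smul_right, bl_e_right, hv]; ring
  refine ⟨((0 : E), (1 : ℝ)) + v.2 • v, ⟨?_, ?_⟩, p1⟩
  · simp only [Prod.snd_add, Prod.smul_snd, smul_eq_mul]; nlinarith [mul_self_nonneg v.2]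
  · rw [bl_add_left, bl_smul_left, p1, bl_e_left]
    simp only [Prod.snd_add, Prod.smul_snd, smul_eq_mul]; nlinarith [mul_self_nonneg v.2]

theorem tangent_pt {v w : E × ℝ} (hv : bl v v = 1) (hw : bl w w = 1) (h : bl v w = 1) :
    ∃ p, Fu p ∧ bl v p = 0 ∧ bl w p = 0 := by
  have h' : bl w v = 1 := (bl_comm _ _).trans h
  have n : bl (v - w) (v - w) = 0 := by simp only [bl_sub_left, bl_sub_right, hv, hw, h, h']; ring
  rcases lt_trichotomy (v - w).2 0 with t | t | t
  · refine ⟨-(v - w), ⟨by simpa using t, by rw [bl_neg_left, bl_neg_right, n]; simp⟩, ?_, ?_⟩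
    · rw [bl_neg_right, bl_sub_right, hv, h]; simp
    · rw [bl_neg_right, bl_sub_right, hw, h']; simp
  · have e : v = w := by
      rw [bl_self, t] at n
      have n1 : ‖(v - w).1‖ = 0 := by
        have : ‖(v - w).1‖ ^ 2 = 0 := by linarith
        exact pow_eq_zero_iff (two_ne_zero) |>.mp this
      rw [norm_eq_zero] at n1
      exact sub_eq_zero.mp (Prod.ext n1 t)
    obtain ⟨p, p1, p2⟩ := self_pt hv
    exact ⟨p, p1, p2, e ▸ p2⟩
  · refine ⟨v - w, ⟨t, n.le⟩, ?_, ?_⟩
    · rw [bl_sub_right, hv, h]; simp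
    · rw [bl_sub_right, hw, h']; simp

theorem meet_pt {v w : E × ℝ} (hv : bl v v = 1) (hw : bl w w = 1) (h : |bl v w| ≤ 1) :
    ∃ p, Fu p ∧ bl v p = 0 ∧ bl w p = 0 := by
  rcases h.lt_or_eq with t | t
  · obtain ⟨p, p1, p2, p3, p4⟩ := cross_pt hv hw t
    exact ⟨p, ⟨p1, p2.le⟩, p3, p4⟩
  · rcases (abs_eq zero_le_one).mp t with t | t
    · exact tangent_pt hv hw t
    · obtain ⟨p, p1, p2, p3⟩ := tangent_pt (w := -w) hv (by simp [hw]) (by simp [t])
      exact ⟨p, p1, p2, by simpa using p3⟩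

theorem time_of_not {v w : E × ℝ} (hv : bl v v = 1) (hw : bl w w = 1) (h : ¬ |bl v w| ≤ 1) :
    (1 < bl v w ∧ bl (v - w) (v - w) < 0) ∨ (bl v w < -1 ∧ bl (v + w) (v + w) < 0) := by
  have h' := bl_comm w v
  rcases lt_abs.mp (not_le.mp h) with t | t
  · left
    refine ⟨t, ?_⟩
    simp only [bl_sub_left, bl_sub_right, hv, hw, h']; linarith
  · right
    refine ⟨by linarith, ?_⟩
    simp only [bl_add_left, bl_add_right, hv, hw, h']; linarith

theorem meet_of_pt {v w p : E × ℝ} (hv : bl v v = 1) (hw : bl w w = 1) (hp : Fu p)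
    (h1 : bl v p = 0) (h2 : bl w p = 0) : |bl v w| ≤ 1 := by
  by_contra h
  rcases time_of_not hv hw h with ⟨-, t⟩ | ⟨-, t⟩ <;> rcases timelike t with s | s <;>
    have := s p hp <;> simp [h1, h2] at this

/-- The slice `x` lies on the positive side of `u`. -/
def Side (u x : E × ℝ) : Prop := ∀ p, Fu p → bl x p = 0 → 0 < bl u p

theorem side_neg {u x : E × ℝ} : Side u (-x) ↔ Side u x := by
  unfold Side; simp

theorem side_or {u x : E × ℝ} (hu : bl u u = 1) (hx : bl x x = 1) (h : ¬ |bl u x| ≤ 1) :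
    Side u x ∨ Side (-u) x := by
  rcases time_of_not hu hx h with ⟨-, t⟩ | ⟨-, t⟩ <;> rcases timelike t with s | s
  · exact Or.inr fun p hp e => by have := s p hp; simp [e] at this ⊢; linarith
  · exact Or.inl fun p hp e => by have := s p hp; simp [e] at this ⊢; linarith
  · exact Or.inr fun p hp e => by have := s p hp; simp [e] at this ⊢; linarith
  · exact Or.inl fun p hp e => by have := s p hp; simp [e] at this ⊢; linarith

theorem Side.pass {u x y : E × ℝ} (h : Side u x) (hu : bl u u = 1) (hx : bl x x = 1)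
    (hy : bl y y = 1) (m : |bl x y| ≤ 1) (n : ¬ |bl u y| ≤ 1) : Side u y := by
  obtain ⟨p, p1, p2, p3⟩ := meet_pt hx hy m
  rcases side_or hu hy n with s | s
  · exact s
  · have a := h p p1 p2
    have b := s p p1 p3
    simp at b; linarith

theorem ext_of_side {x y : E × ℝ} (hx : bl x x = 1) (hy : bl y y = 1) (n : ¬ |bl x y| ≤ 1)
    (h1 : Side (-x) y) (h2 : Side (-y) x) : bl x y < -1 := by
  rcases time_of_not hx hy n with ⟨-, t⟩ | ⟨t, -⟩
  · exfalso
    obtain ⟨p, p1, p2⟩ := self_pt hx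
    obtain ⟨q, q1, q2⟩ := self_pt hy
    have a := h2 p p1 p2
    have b := h1 q q1 q2
    rcases timelike t with s | s
    · have := s p p1
      simp [p2] at this a; linarith
    · have := s q q1
      simp [q2] at this b; linarith
  · exact t

/-- `w` is `v` up to sign. -/
def Pm (v w : E × ℝ) : Prop := w = v ∨ w = -v

theorem Pm.unit {v w : E × ℝ} (h : Pm v w) (hv : bl v v = 1) : bl w w = 1 := by
  rcases h with rfl | rfl <;> simp [hv]
theorem Pm.abs_left {v w : E × ℝ} (h : Pm v w) (u : E × ℝ) : |bl w u| = |bl v u| := by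
  rcases h with rfl | rfl <;> simp
theorem Pm.abs_right {v w : E × ℝ} (h : Pm v w) (u : E × ℝ) : |bl u w| = |bl u v| := by
  rcases h with rfl | rfl <;> simp
theorem Pm.side {v w : E × ℝ} (h : Pm v w) (u : E × ℝ) : Side u w ↔ Side u v := by
  rcases h with rfl | rfl
  · rfl
  · exact side_neg

theorem orient {u x : E × ℝ} (hu : bl u u = 1) (hx : bl x x = 1) (h : ¬ |bl u x| ≤ 1) :
    ∃ u', Pm u u' ∧ Side (-u') x := by
  rcases side_or hu hx h with s | s
  · exact ⟨-u, Or.inr rfl, by simpa using s⟩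
  · exact ⟨u, Or.inl rfl, s⟩

/-- Any two vectors of the same nonzero length are exchanged, up to sign, by an isometry. -/
theorem exists_iso {a b : E × ℝ} (h : bl a a = bl b b) (h0 : bl a a ≠ 0) :
    ∃ f : E × ℝ → E × ℝ, (∀ v w, bl (f v) (f w) = bl v w) ∧ Pm b (f a) := by
  have key : ∀ b : E × ℝ, bl a a = bl b b → bl (a - b) (a - b) ≠ 0 →
      ∃ f : E × ℝ → E × ℝ, (∀ v w, bl (f v) (f w) = bl v w) ∧ f a = b := by
    intro b h hn
    refine ⟨fun v => v - (2 * bl v (a - b) / bl (a - b) (a - b)) • (a - b), fun v w => ?_, ?_⟩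
    · generalize a - b = n at hn
      simp only [bl_sub_left, bl_sub_right, bl_smul_left, bl_smul_right, bl_comm n w]
      field_simp
      ring
    · have e : bl (a - b) (a - b) = 2 * bl a (a - b) := by
        simp only [bl_sub_left, bl_sub_right, bl_comm b a, ← h]; ring
      have : 2 * bl a (a - b) / bl (a - b) (a - b) = 1 := by rw [← e, div_self hn]
      simp only [this, one_smul, sub_sub_cancel]
  by_cases hn : bl (a - b) (a - b) = 0
  · obtain ⟨f, f1, f2⟩ := key (-b) (by simpa using h) (by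
      simp only [bl_sub_left, bl_sub_right, bl_neg_left, bl_neg_right, bl_comm b a, ← h] at hn ⊢
      intro e; apply h0; linarith)
    exact ⟨f, f1, Or.inr f2⟩
  · obtain ⟨f, f1, f2⟩ := key b h hn
    exact ⟨f, f1, Or.inl f2⟩

/-- Kissing bound: few mutually external slices meet three mutually external slices. -/
theorem kiss [FiniteDimensional ℝ E] {x y z : E × ℝ} (hx : bl x x = 1) (hy : bl y y = 1)
    (hz : bl z z = 1) (xy : bl x y < -1) (xz : bl x z < -1) (yz : bl y z < -1) {N : ℕ}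
    (u : Fin N → E × ℝ) (hu : ∀ i, bl (u i) (u i) = 1) (hij : ∀ i j, i ≠ j → bl (u i) (u j) < -1)
    (ux : ∀ i, |bl x (u i)| ≤ 1) (uy : ∀ i, |bl y (u i)| ≤ 1) (uz : ∀ i, |bl z (u i)| ≤ 1) :
    N ≤ 5 ^ Module.finrank ℝ E := by
  classical
  have t0 : bl (x + y + z) (x + y + z) < -3 := by
    simp only [bl_add_left, bl_add_right, hx, hy, hz, bl_comm y x, bl_comm z x, bl_comm z y]
    linarith
  set T := x + y + z with hT
  set r := √(-bl T T) with hr
  have r0 : 0 < r := Real.sqrt_pos.mpr (by linarith)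
  have r2 : r ^ 2 = -bl T T := Real.sq_sqrt (by linarith)
  obtain ⟨f, f1, f2⟩ := exists_iso (a := T) (b := ((0 : E), r))
    (by rw [bl_self ((0 : E), r)]; simp [r2]) (by linarith)
  have s3 : ∀ i, (f (u i)).2 ^ 2 ≤ 3 := fun i => by
    have a1 : |bl T (u i)| ≤ 3 := by
      rw [hT, bl_add_left, bl_add_left]
      have := ux i; have := uy i; have := uz i
      rw [abs_le] at *
      constructor <;> linarith [(‹_ ∧ _› : -1 ≤ bl z (u i) ∧ _).1, (abs_le.mp (ux i)).1,
        (abs_le.mp (ux i)).2, (abs_le.mp (uy i)).1, (abs_le.mp (uy i)).2, (abs_le.mp (uz i)).2]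
    rw [← f1, f2.abs_left] at a1
    have a2 : bl ((0 : E), r) (f (u i)) = -(r * (f (u i)).2) := by simp [bl]
    rw [a2, abs_neg] at a1
    have a3 : (r * (f (u i)).2) ^ 2 ≤ 3 ^ 2 := by
      rw [← sq_abs]; exact pow_le_pow_left₀ (abs_nonneg _) a1 2
    rw [mul_pow] at a3
    nlinarith [sq_nonneg (f (u i)).2]
  have sep : ∀ i j, i ≠ j → 1 ≤ ‖(f (u i)).1 - (f (u j)).1‖ := fun i j e => by
    have a1 : bl (f (u i) - f (u j)) (f (u i) - f (u j)) = 2 - 2 * bl (u i) (u j) := by
      simp only [bl_sub_left, bl_sub_right, f1, hu, bl_comm (u j) (u i)]; ring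
    rw [bl_self, Prod.fst_sub] at a1
    apply le_of_pow_le_pow_left₀ (n := 2) (by norm_num) (norm_nonneg _)
    nlinarith [hij i j e, sq_nonneg (f (u i) - f (u j)).2]
  have inj : Function.Injective fun i => (f (u i)).1 := fun i j e => by
    by_contra ne
    have := sep i j ne
    simp only at e
    rw [e, sub_self, norm_zero] at this
    linarith
  have := Besicovitch.card_le_of_separated (Finset.univ.image fun i => (f (u i)).1)
    (fun c hc => by
      obtain ⟨i, -, rfl⟩ := Finset.mem_image.mp hc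
      have a1 := f1 (u i) (u i)
      rw [bl_self, hu] at a1
      apply le_of_pow_le_pow_left₀ (n := 2) (by norm_num) (by norm_num)
      linarith [s3 i])
    (fun c hc d hd ne => by
      obtain ⟨i, -, rfl⟩ := Finset.mem_image.mp hc
      obtain ⟨j, -, rfl⟩ := Finset.mem_image.mp hd
      exact sep i j fun e => ne (by rw [e]))
  rwa [Finset.card_image_of_injective _ inj, Finset.card_univ, Fintype.card_fin] at this

end Pool.Agent.P.MP_7578b2_co.All
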