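import Pool.Agent.P.MP_7578b2_co.All.Sep

/-!
Three slices crossing in a common interior point can be forced to do so in every representation.
-/

namespace Pool.Agent.P.MP_7578b2_co.All

open Real

/-- The sign attached to a Boolean. -/
noncomputable def sg (b : Bool) : ℝ := if b then 1 else -1

theorem sg_sq (b : Bool) : sg b ^ 2 = 1 := by cases b <;> simp [sg]

theorem abs_sg (b : Bool) (x : ℝ) : |sg b * x| = |x| := by cases b <;> simp [sg]

theorem sinh_sg (b : Bool) (x : ℝ) : sinh (sg b * x) = sg b * sinh x := by cases b <;> simp [sg]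

theorem cosh_sg (b : Bool) (x : ℝ) : cosh (sg b * x) = cosh x := by cases b <;> simp [sg]

theorem exists_sg (x : ℝ) : ∃ b, sg b * x = |x| := by
  rcases le_total 0 x with h | h
  · exact ⟨true, by simp [sg, abs_of_nonneg h]⟩
  · exact ⟨false, by simp [sg, abs_of_nonpos h]⟩

/-- The pencil through the central disc `u`. -/
noncomputable def Dp (u : V) (r : ℝ) : V := ⟨sinh r, cosh r * u.z, cosh r * u.x, cosh r * u.y⟩

theorem Dp_unit {u : V} (hu : B u u = 1) (ht : u.t = 0) (r : ℝ) : B (Dp u r) (Dp u r) = 1 := by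
  simp only [B, Dp, ht] at hu ⊢
  linear_combination cosh r ^ 2 * hu + cosh_sq r

theorem B_Dp {u : V} (ht : u.t = 0) (r : ℝ) (x : V) :
    B (Dp u r) x = cosh r * B u x - sinh r * x.t := by
  simp only [B, Dp, ht]; ring

variable {E : Type} [NormedAddCommGroup E] [InnerProductSpace ℝ E]

theorem sepD [FiniteDimensional ℝ E] {s : ℝ} (hs : 0 < s)
    (h : sinh s * (4 * (5 ^ Module.finrank ℝ E + 1 : ℕ)) < 1) {u : V} (g : V → V)
    (hg : ∀ v w, B (g v) (g w) = B v w) (e : ∀ r, g (C r) = Dp u r) (e0 : g (C 0) = u) :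
    FR B (bl (E := E))
      (fun φ => ∀ σ : Bool, ∃ τ : Bool, Side (sg σ • φ u) (φ (Dp u (sg τ * s)))) := by
  refine ((sep (E := E) hs h).iso hg).mono fun φ ⟨w, w1, w2, w3⟩ σ => ?_
  simp only [Function.comp, e0] at w1
  simp only [Function.comp, e] at w2 w3
  rcases w1 with rfl | rfl <;> cases σ
  · exact ⟨false, by simpa [sg] using w3⟩
  · exact ⟨true, by simpa [sg] using w2⟩
  · exact ⟨true, by simpa [sg] using w2⟩
  · exact ⟨false, by simpa [sg] using w3⟩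

/-- The traces of `a` and `b` on `c` are proper and cross. -/
def Tr (a b c : E × ℝ) : Prop :=
  bl a c ^ 2 < 1 ∧ bl b c ^ 2 < 1 ∧
    (bl a b - bl a c * bl b c) ^ 2 < (1 - bl a c ^ 2) * (1 - bl b c ^ 2)

theorem tr_of_octants {a b c : E × ℝ} (ha : bl a a = 1) (hb : bl b b = 1) (hc : bl c c = 1)
    (h : ∀ σ1 σ2 σ3 : Bool, ∃ p, Fu p ∧ 0 < sg σ1 * bl a p ∧ 0 < sg σ2 * bl b p ∧
      0 < sg σ3 * bl c p) : Tr a b c := by
  have pos : ∀ x y z : ℝ, 0 < |x| + |y| + |z| → ∃ p, Fu p ∧ 0 < bl (x • a + y • b + z • c) p := by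
    intro x y z h0
    obtain ⟨σ1, e1⟩ := exists_sg x
    obtain ⟨σ2, e2⟩ := exists_sg y
    obtain ⟨σ3, e3⟩ := exists_sg z
    obtain ⟨p, p0, p1, p2, p3⟩ := h σ1 σ2 σ3
    refine ⟨p, p0, ?_⟩
    have f1 : x * bl a p = |x| * (sg σ1 * bl a p) := by
      rw [← e1]; linear_combination (-(x * bl a p)) * sg_sq σ1
    have f2 : y * bl b p = |y| * (sg σ2 * bl b p) := by
      rw [← e2]; linear_combination (-(y * bl b p)) * sg_sq σ2
    have f3 : z * bl c p = |z| * (sg σ3 * bl c p) := by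
      rw [← e3]; linear_combination (-(z * bl c p)) * sg_sq σ3
    simp only [bl_add_left, bl_smul_left, f1, f2, f3]
    have g1 := mul_nonneg (abs_nonneg x) p1.le
    have g2 := mul_nonneg (abs_nonneg y) p2.le
    have g3 := mul_nonneg (abs_nonneg z) p3.le
    by_contra hn
    have k1 : |x| ≤ 0 := by by_contra k; nlinarith [mul_pos (not_le.mp k) p1]
    have k2 : |y| ≤ 0 := by by_contra k; nlinarith [mul_pos (not_le.mp k) p2]
    have k3 : |z| ≤ 0 := by by_contra k; nlinarith [mul_pos (not_le.mp k) p3]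
    linarith
  have pd : ∀ x y z : ℝ, 0 < |x| + |y| + |z| → 0 < x ^ 2 + y ^ 2 + z ^ 2 +
      2 * x * y * bl a b + 2 * x * z * bl a c + 2 * y * z * bl b c := by
    intro x y z h0
    by_contra hn
    have q : bl (x • a + y • b + z • c) (x • a + y • b + z • c) ≤ 0 := by
      simp only [bl_add_left, bl_add_right, bl_smul_left, bl_smul_right, ha, hb, hc,
        bl_comm b a, bl_comm c a, bl_comm c b]
      linarith
    rcases causal q with t | t
    · obtain ⟨p, p0, p1⟩ := pos x y z h0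
      linarith [t p p0]
    · obtain ⟨p, p0, p1⟩ := pos (-x) (-y) (-z) (by simpa using h0)
      have := t p p0
      simp only [bl_add_left, bl_smul_left] at this p1
      linarith
  have t1 : bl a c ^ 2 < 1 := by
    have := pd 1 0 (-bl a c) (by simp; positivity)
    nlinarith
  have t2 : bl b c ^ 2 < 1 := by
    have := pd 0 1 (-bl b c) (by simp; positivity)
    nlinarith
  refine ⟨t1, t2, ?_⟩
  set x := -(bl a b - bl a c * bl b c) with hx
  set y := 1 - bl a c ^ 2 with hy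
  have y0 : 0 < y := by linarith
  have := pd x y (-(x * bl a c + y * bl b c)) (by
    have := abs_pos.mpr y0.ne'
    positivity)
  have e : x ^ 2 + y ^ 2 + (-(x * bl a c + y * bl b c)) ^ 2 + 2 * x * y * bl a b +
      2 * x * (-(x * bl a c + y * bl b c)) * bl a c +
      2 * y * (-(x * bl a c + y * bl b c)) * bl b c =
      y * (y * (1 - bl b c ^ 2) - (bl a b - bl a c * bl b c) ^ 2) := by
    rw [hx, hy]; ring
  rw [e] at this
  linarith [pos_of_mul_pos_of_nonneg_left' this y0]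
where pos_of_mul_pos_of_nonneg_left' {y w : ℝ} (h : 0 < y * w) (hy : 0 < y) : 0 < w :=
  (mul_pos_iff_of_pos_left hy).mp h

theorem exists_cap {b q β κ : ℝ} (hq : 0 < q) (hb : b ^ 2 + q ^ 2 = 1) (β0 : 0 < β)
    (β1 : β ≤ q / 4) (κ0 : 0 < κ) (hκ : κ ^ 2 = β ^ 2 + 1) (τ1 τ2 τ3 : Bool) :
    ∃ (x : V) (c : ℝ), B x x = 1 ∧ 1 < c ∧ B ⟨0, 1, 0, 0⟩ x = sg τ1 * c ∧
      B ⟨0, b, q, 0⟩ x = sg τ2 * c ∧ B ⟨0, 0, 0, 1⟩ x = sg τ3 * c ∧ |κ * c - β * x.t| < 1 := by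
  have q1 : q ≤ 1 := by nlinarith [sq_nonneg b]
  have β2 : β ≤ 1 / 4 := by linarith
  set c := 1 + β / 4 with hc
  have c1 : 1 < c := by linarith
  have c2 : c ≤ 17 / 16 := by linarith
  set w := (sg τ2 - b * sg τ1) * c / q with hw
  have wq : q * w = (sg τ2 - b * sg τ1) * c := by rw [hw]; field_simp
  have b1 : b ^ 2 ≤ 1 := by nlinarith [sq_nonneg q]
  have w1 : (sg τ2 - b * sg τ1) ^ 2 ≤ 4 := by
    nlinarith [sq_nonneg (sg τ2 + b * sg τ1), sg_sq τ1, sg_sq τ2]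
  have w2 : (β * w) ^ 2 ≤ c ^ 2 / 4 := by
    have a1 : (β * w) ^ 2 ≤ (q / 4) ^ 2 * w ^ 2 := by
      rw [mul_pow]
      exact mul_le_mul_of_nonneg_right (pow_le_pow_left₀ β0.le β1 2) (sq_nonneg w)
    have a2 : (q / 4) ^ 2 * w ^ 2 = (sg τ2 - b * sg τ1) ^ 2 * c ^ 2 / 16 := by
      rw [← mul_pow _ c, ← wq]; ring
    nlinarith [mul_le_mul_of_nonneg_right w1 (sq_nonneg c)]
  have n0 : 1 ≤ 2 * c ^ 2 + w ^ 2 - 1 := by nlinarith [sq_nonneg w]
  set l := √(2 * c ^ 2 + w ^ 2 - 1) with hl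
  have l2 : l ^ 2 = 2 * c ^ 2 + w ^ 2 - 1 := Real.sq_sqrt (by linarith)
  have l0 : 0 ≤ l := Real.sqrt_nonneg _
  have l1 : 1 ≤ l := by nlinarith
  have κ1 : 1 < κ := by nlinarith
  have κ2 : κ ≤ 1 + β / 8 := by nlinarith
  have l3 : β * l < 2 := by
    apply lt_of_pow_lt_pow_left₀ 2 (by norm_num)
    have : (β * l) ^ 2 = 2 * (β * c) ^ 2 + (β * w) ^ 2 - β ^ 2 := by
      rw [mul_pow, l2]; ring
    have a : β * c ≤ 1 := by nlinarith
    have a' : (β * c) ^ 2 ≤ 1 := by nlinarith [mul_pos β0 (lt_trans one_pos c1)]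
    nlinarith [sq_nonneg β]
  refine ⟨⟨l, sg τ1 * c, w, sg τ3 * c⟩, c, ?_, c1, by simp [B], ?_, by simp [B], ?_⟩
  · simp only [B]
    linear_combination c ^ 2 * sg_sq τ1 + c ^ 2 * sg_sq τ3 - l2
  · simp only [B]; linear_combination wq
  · have a1 : κ * c ≤ (1 + β / 8) * c := mul_le_mul_of_nonneg_right κ2 (by linarith)
    have a2 : β ≤ β * l := le_mul_of_one_le_right β0.le l1
    rw [abs_lt]; constructor <;> nlinarith

theorem oct [FiniteDimensional ℝ E] {b q : ℝ} (hq : 0 < q) (hb : b ^ 2 + q ^ 2 = 1) :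
    FR B (bl (E := E)) (fun φ => Tr (φ ⟨0, 1, 0, 0⟩) (φ ⟨0, b, q, 0⟩) (φ ⟨0, 0, 0, 1⟩)) := by
  set N : ℝ := ((5 ^ Module.finrank ℝ E + 1 : ℕ) : ℝ) with hN
  have N0 : 0 < N := by rw [hN]; positivity
  set β := min (q / 4) (1 / (8 * N)) with hβ
  have β0 : 0 < β := by positivity
  have β2 : β * (8 * N) ≤ 1 := by
    rw [← le_div_iff₀ (by positivity)]; exact min_le_right _ _
  set s := arsinh β with hs
  have sβ : sinh s = β := sinh_arsinh β
  have s0 : 0 < s := by rw [← sinh_pos_iff, sβ]; exact β0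
  have h : sinh s * (4 * N) < 1 := by rw [sβ]; nlinarith [mul_pos β0 N0]
  have u1 : B ⟨0, 1, 0, 0⟩ ⟨0, 1, 0, 0⟩ = 1 := by simp [B]
  have u2 : B ⟨0, b, q, 0⟩ ⟨0, b, q, 0⟩ = 1 := by simp only [B]; linarith
  have u3 : B ⟨0, 0, 0, 1⟩ ⟨0, 0, 0, 1⟩ = 1 := by simp [B]
  have f1 := sepD (E := E) s0 h (u := ⟨0, 1, 0, 0⟩) id (fun _ _ => rfl)
    (fun r => by simp [C, Dp]) (by simp [C])
  have f2 := sepD (E := E) s0 h (u := ⟨0, b, q, 0⟩)
    (fun v => ⟨v.t, b * v.z - q * v.x, q * v.z + b * v.x, v.y⟩)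
    (fun v w => by simp only [B]; linear_combination (v.z * w.z + v.x * w.x) * hb)
    (fun r => by simp [C, Dp, mul_comm]) (by simp [C])
  have f3 := sepD (E := E) s0 h (u := ⟨0, 0, 0, 1⟩) (fun v => ⟨v.t, v.y, v.x, v.z⟩)
    (fun v w => by simp only [B]; ring) (fun r => by simp [C, Dp]) (by simp [C])
  have cap := fun τ : Bool × Bool × Bool => exists_cap hq hb β0 (min_le_left _ _) (cosh_pos s)
    (by rw [cosh_sq, sβ]) τ.1 τ.2.1 τ.2.2
  choose x c x1 c1 x2 x3 x4 x5 using cap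
  have f4 : ∀ τ : Bool × Bool × Bool, FR B (bl (E := E)) (GR B bl
      {⟨0, 1, 0, 0⟩, ⟨0, b, q, 0⟩, ⟨0, 0, 0, 1⟩, Dp ⟨0, 1, 0, 0⟩ (sg τ.1 * s),
        Dp ⟨0, b, q, 0⟩ (sg τ.2.1 * s), Dp ⟨0, 0, 0, 1⟩ (sg τ.2.2 * s), x τ}) := fun τ => by
    refine FR.self (Set.Finite.countable (Set.toFinite _)) fun v hv => ?_
    simp only [Set.mem_insert_iff, Set.mem_singleton_iff] at hv
    rcases hv with rfl | rfl | rfl | rfl | rfl | rfl | rfl
    exacts [u1, u2, u3, Dp_unit u1 rfl _, Dp_unit u2 rfl _, Dp_unit u3 rfl _, x1 τ]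
  refine (((f1.and f2).and f3).and (FR.all f4)).mono fun φ ⟨⟨⟨a1, a2⟩, a3⟩, g⟩ => ?_
  have g0 := g (true, true, true)
  refine tr_of_octants (g0.1 _ (by simp)) (g0.1 _ (by simp)) (g0.1 _ (by simp))
    fun σ1 σ2 σ3 => ?_
  obtain ⟨τ1, b1⟩ := a1 σ1
  obtain ⟨τ2, b2⟩ := a2 σ2
  obtain ⟨τ3, b3⟩ := a3 σ3
  have g1 := g (τ1, τ2, τ3)
  have key : ∀ {S : Set V} (_ : GR B bl S φ) {u y : V} {σ τ : Bool} {d : ℝ}, u ∈ S → y ∈ S →
      Dp u (sg τ * s) ∈ S → u.t = 0 → 1 < d → B u y = sg τ * d → |cosh s * d - β * y.t| < 1 →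
      Side (sg σ • φ u) (φ (Dp u (sg τ * s))) → Side (sg σ • φ u) (φ y) := by
    intro S g u y σ τ d m1 m2 m3 ut d1 e1 e2 sd
    refine sd.pass ?_ (g.1 _ m3) (g.1 _ m2) (g.2.1 _ m3 _ m2 ?_) ?_
    · rw [bl_smul_left, bl_smul_right, g.1 _ m1]; linarith [sg_sq σ]
    · rw [B_Dp ut, cosh_sg, sinh_sg, e1, sβ,
        show cosh s * (sg τ * d) - sg τ * β * y.t = sg τ * (cosh s * d - β * y.t) by ring, abs_sg]
      exact e2
    · rw [bl_smul_left, abs_sg]
      refine g.2.2 _ m1 _ m2 ?_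
      rw [e1, abs_sg, abs_of_pos (by linarith)]
      linarith
  have k1 := key g1 (by simp) (y := x (τ1, τ2, τ3)) (by simp) (by simp) rfl (c1 _) (x2 _) (x5 _) b1
  have k2 := key g1 (by simp) (y := x (τ1, τ2, τ3)) (by simp) (by simp) rfl (c1 _) (x3 _) (x5 _) b2
  have k3 := key g1 (by simp) (y := x (τ1, τ2, τ3)) (by simp) (by simp) rfl (c1 _) (x4 _) (x5 _) b3
  obtain ⟨p, p1, p2⟩ := self_pt (g1.1 (x (τ1, τ2, τ3)) (by simp))
  exact ⟨p, p1, by simpa using k1 p p1 p2, by simpa using k2 p p1 p2, by simpa using k3 p p1 p2⟩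

end Pool.Agent.P.MP_7578b2_co.All
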