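import Pool.Agent.P.MP_7578b2_co.All.Base
import Pool.Agent.P.MP_7578b2_co.All.Lor

/-!
A finite configuration forcing two slices onto opposite sides of a third one, in every dimension.
-/

namespace Pool.Agent.P.MP_7578b2_co.All

open Real

/-- Many pairwise disjoint discs crossing a thin annulus, with a hub and private witnesses. -/
theorem fan (N : ℕ) (hN : 1 ≤ N) : ∃ (O : V) (z W : Fin N → V), B O O = 1 ∧
    (∀ i, B (z i) (z i) = 1) ∧ (∀ i, B (W i) (W i) = 1) ∧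
    (∀ i j, i ≠ j → ¬ |B (z i) (z j)| ≤ 1) ∧ (∀ i, ¬ |B (z i) O| ≤ 1) ∧
    (∀ i, |B O (W i)| < 1) ∧ (∀ i, |B (W i) (z i)| < 1) ∧
    (∀ i j, i ≠ j → ¬ |B (z i) (W j)| ≤ 1) ∧
    ∀ τ s, |s| ≤ τ → sinh τ * (4 * N) < 1 → ∀ i, |B (C s) (z i)| < 1 := by
  have N1 : (1 : ℝ) ≤ N := by exact_mod_cast hN
  set T : ℝ := 4 * N with hT
  have T4 : 4 ≤ T := by linarith
  set μ := √(1 + T ^ 2) with hμ
  have μ0 : 0 < μ := Real.sqrt_pos.mpr (by positivity)
  have μT : μ ^ 2 = 1 + T ^ 2 := Real.sq_sqrt (by positivity)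
  have d1 : T < μ := by nlinarith
  have d2 : μ < T + 1 := by nlinarith
  set σ := 3 / (2 * T) with hσ
  have σT : σ * T = 3 / 2 := by rw [hσ]; field_simp
  have σ0 : 0 < σ := by positivity
  have σ1 : σ < 1 / 2 := by nlinarith
  set κ := √(1 + σ ^ 2) with hκ
  have κ0 : 0 < κ := Real.sqrt_pos.mpr (by positivity)
  have κσ : κ ^ 2 = 1 + σ ^ 2 := Real.sq_sqrt (by positivity)
  have κ1 : 1 < κ := by nlinarith
  have κ2 : κ < 2 := by nlinarith
  have gap : ∀ i j : Fin N, i ≠ j →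
      μ ^ 2 * cos (((i : ℕ) : ℝ) / N - ((j : ℕ) : ℝ) / N) < μ ^ 2 - 3 := by
    intro i j hij
    set x := ((i : ℕ) : ℝ) / N - ((j : ℕ) : ℝ) / N with hx
    have xN : x * N = ((i : ℕ) : ℝ) - ((j : ℕ) : ℝ) := by rw [hx]; field_simp
    have i0 : (0 : ℝ) ≤ (i : ℕ) := Nat.cast_nonneg _
    have j0 : (0 : ℝ) ≤ (j : ℕ) := Nat.cast_nonneg _
    have i1 : ((i : ℕ) : ℝ) < N := by exact_mod_cast i.2
    have j1 : ((j : ℕ) : ℝ) < N := by exact_mod_cast j.2
    have x1 : |x| ≤ π := by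
      rw [abs_le]; constructor <;> nlinarith [pi_gt_three]
    have x2 : 1 ≤ (x * N) ^ 2 := by
      rw [xN]
      have ne : (i : ℕ) ≠ j := fun e => hij (Fin.ext e)
      rcases lt_or_gt_of_ne ne with h | h
      · have : ((i : ℕ) : ℝ) + 1 ≤ (j : ℕ) := by exact_mod_cast h
        nlinarith
      · have : ((j : ℕ) : ℝ) + 1 ≤ (i : ℕ) := by exact_mod_cast h
        nlinarith
    have c1 := cos_le_one_sub_mul_cos_sq x1
    have p2 : π ^ 2 < 10 := by nlinarith [pi_lt_d2, pi_pos]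
    have p3 : 1 / 5 < 2 / π ^ 2 := by
      rw [div_lt_div_iff₀ (by norm_num) (by positivity)]; linarith
    have c2 : cos x ≤ 1 - 1 / 5 * x ^ 2 := by nlinarith [sq_nonneg x]
    have c3 : 16 ≤ T ^ 2 * x ^ 2 := by rw [hT]; nlinarith
    have c4 : 16 ≤ μ ^ 2 * x ^ 2 := by nlinarith [sq_nonneg x]
    nlinarith [mul_le_mul_of_nonneg_left c2 (sq_nonneg μ)]
  have PW : ∀ a a', B (Pc T μ a) (Wt μ 1 a') = μ ^ 2 * cos (a - a') - μ * T := fun a a' => by
    simp only [B, Pc, Wt, cos_sub]; ring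
  refine ⟨⟨σ, κ, 0, 0⟩, fun i => Pc T μ ((i : ℕ) / N), fun i => Wt μ 1 ((i : ℕ) / N), ?_,
    fun i => P_unit μT _, fun i => Wt_unit _ (by norm_num) _, fun i j hij m => ?_,
    fun i m => ?_, fun i => ?_, fun i => ?_, fun i j hij m => ?_, fun τ s hs h i => ?_⟩
  · simp only [B]; linarith
  · have := (abs_le.mp m).1
    rw [B_P] at this
    nlinarith [gap i j hij]
  · have := (abs_le.mp m).1
    simp only [B, Pc] at this
    linarith
  · simp only [B, Wt]
    rw [abs_lt]; constructor <;> nlinarith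
  · rw [B_comm, PW, sub_self, cos_zero, abs_lt]
    constructor <;> nlinarith
  · have := (abs_le.mp m).1
    rw [PW] at this
    nlinarith [gap i j hij]
  · exact X_C_P hs (by linarith) h _ _

variable {E : Type} [NormedAddCommGroup E] [InnerProductSpace ℝ E]

theorem sep [FiniteDimensional ℝ E] {s : ℝ} (hs : 0 < s)
    (h : sinh s * (4 * (5 ^ Module.finrank ℝ E + 1 : ℕ)) < 1) :
    FR B (bl (E := E)) (fun φ => ∃ u, Pm (φ (C 0)) u ∧ Side u (φ (C s)) ∧
      Side (-u) (φ (C (-s)))) := by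
  obtain ⟨O, z, W, O1, z1, W1, zz, zO, OW, Wz, zW, Cz⟩ :=
    fan (5 ^ Module.finrank ℝ E + 1) (Nat.le_add_left _ _)
  let S0 : Set V := {C 0, C s, C (-s), St (s / 2) s, St (-s / 2) s, O}
  let S : Set V := S0 ∪ (Set.range z ∪ Set.range W)
  have m0 : C 0 ∈ S := Or.inl (by simp [S0])
  have m1 : C s ∈ S := Or.inl (by simp [S0])
  have m2 : C (-s) ∈ S := Or.inl (by simp [S0])
  have m3 : St (s / 2) s ∈ S := Or.inl (by simp [S0])
  have m4 : St (-s / 2) s ∈ S := Or.inl (by simp [S0])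
  have m5 : O ∈ S := Or.inl (by simp [S0])
  have mz : ∀ i, z i ∈ S := fun i => Or.inr (Or.inl ⟨i, rfl⟩)
  have mW : ∀ i, W i ∈ S := fun i => Or.inr (Or.inr ⟨i, rfl⟩)
  refine ⟨S, (Set.Finite.countable (Set.toFinite _)).union
    ((Set.countable_range _).union (Set.countable_range _)), ?_, fun φ g => ?_⟩
  · rintro v (hv | ⟨k, rfl⟩ | ⟨k, rfl⟩)
    · simp only [S0, Set.mem_insert_iff, Set.mem_singleton_iff] at hv
      rcases hv with rfl | rfl | rfl | rfl | rfl | rfl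
      exacts [C_unit _, C_unit _, C_unit _, St_unit _ hs, St_unit _ hs, O1]
    · exact z1 k
    · exact W1 k
  have ux := g.1 _ m0
  have uy := g.1 _ m1
  have uz := g.1 _ m2
  have xy : ¬ |bl (φ (C 0)) (φ (C s))| ≤ 1 := g.2.2 _ m0 _ m1 (not_M_C hs.ne)
  have xz : ¬ |bl (φ (C 0)) (φ (C (-s)))| ≤ 1 := g.2.2 _ m0 _ m2 (not_M_C (by linarith))
  have yz : ¬ |bl (φ (C s)) (φ (C (-s)))| ≤ 1 := g.2.2 _ m1 _ m2 (not_M_C (by linarith))
  obtain ⟨x', x1, x2⟩ := orient ux uy xy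
  have ux' := x1.unit ux
  have nx : Pm (φ (C 0)) (-x') := by
    rcases x1 with rfl | rfl
    · exact Or.inr rfl
    · exact Or.inl (neg_neg _)
  rcases side_or ux' uz (by rwa [x1.abs_left]) with x3 | x3
  · exact ⟨-x', nx, x2, by rwa [neg_neg]⟩
  exfalso
  obtain ⟨y', y1, y2⟩ := orient uy ux (by rwa [bl_comm])
  obtain ⟨z', z1', z2⟩ := orient uz ux (by rwa [bl_comm])
  have uy' := y1.unit uy
  have uz' := z1'.unit uz
  have un : ∀ {v : E × ℝ}, bl v v = 1 → bl (-v) (-v) = 1 := fun e => by simp [e]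
  have an : ∀ {v v' : E × ℝ}, Pm v v' → ∀ w, |bl (-v') w| = |bl v w| := fun e w => by
    rw [bl_neg_left, abs_neg, e.abs_left]
  have y3 : Side (-y') (φ (C (-s))) := by
    refine (y2.pass (un uy') ux (g.1 _ m4) (g.2.1 _ m0 _ m4 ((X_C_St hs).mpr ?_)) ?_).pass
      (un uy') (g.1 _ m4) uz ?_ (by rwa [an y1])
    · rw [abs_lt]; constructor <;> linarith
    · rw [an y1]
      refine g.2.2 _ m1 _ m4 fun m => ?_
      have := (abs_le.mp ((M_C_St hs).mp m)).2
      linarith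
    · rw [bl_comm]
      refine g.2.1 _ m2 _ m4 ((X_C_St hs).mpr ?_)
      rw [abs_lt]; constructor <;> linarith
  have z3 : Side (-z') (φ (C s)) := by
    refine (z2.pass (un uz') ux (g.1 _ m3) (g.2.1 _ m0 _ m3 ((X_C_St hs).mpr ?_)) ?_).pass
      (un uz') (g.1 _ m3) uy ?_ (by rwa [an z1', bl_comm])
    · rw [abs_lt]; constructor <;> linarith
    · rw [an z1']
      refine g.2.2 _ m2 _ m3 fun m => ?_
      have := (abs_le.mp ((M_C_St hs).mp m)).1
      linarith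
    · rw [bl_comm]
      refine g.2.1 _ m1 _ m3 ((X_C_St hs).mpr ?_)
      rw [abs_lt]; constructor <;> linarith
  have e1 : bl x' y' < -1 := ext_of_side ux' uy' (by rwa [x1.abs_left, y1.abs_right])
    ((y1.side _).mpr x2) ((x1.side _).mpr y2)
  have e2 : bl x' z' < -1 := ext_of_side ux' uz' (by rwa [x1.abs_left, z1'.abs_right])
    ((z1'.side _).mpr x3) ((x1.side _).mpr z2)
  have e3 : bl y' z' < -1 := ext_of_side uy' uz' (by rwa [y1.abs_left, z1'.abs_right])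
    ((z1'.side _).mpr y3) ((y1.side _).mpr z3)
  have ori : ∀ i, ∃ u', Pm (φ (z i)) u' ∧ Side (-u') (φ O) := fun i =>
    orient (g.1 _ (mz i)) (g.1 _ m5) (g.2.2 _ (mz i) _ m5 (zO i))
  choose u u1 u2 using ori
  have uu : ∀ i, bl (u i) (u i) = 1 := fun i => (u1 i).unit (g.1 _ (mz i))
  have us : ∀ i j, i ≠ j → Side (-u i) (u j) := fun i j hij => by
    rw [(u1 j).side]
    refine ((u2 i).pass (un (uu i)) (g.1 _ m5) (g.1 _ (mW j)) (g.2.1 _ m5 _ (mW j) (OW j))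
      ?_).pass (un (uu i)) (g.1 _ (mW j)) (g.1 _ (mz j)) (g.2.1 _ (mW j) _ (mz j) (Wz j)) ?_
    · rw [an (u1 i)]; exact g.2.2 _ (mz i) _ (mW j) (zW i j hij)
    · rw [an (u1 i)]; exact g.2.2 _ (mz i) _ (mz j) (zz i j hij)
  have := kiss ux' uy' uz' e1 e2 e3 u uu
    (fun i j hij => ext_of_side (uu i) (uu j)
      (by rw [(u1 i).abs_left, (u1 j).abs_right]; exact g.2.2 _ (mz i) _ (mz j) (zz i j hij))
      (us i j hij) (us j i hij.symm))
    (fun i => by
      rw [x1.abs_left, (u1 i).abs_right]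
      exact g.2.1 _ m0 _ (mz i) (Cz s 0 (by simp [hs.le]) h i))
    (fun i => by
      rw [y1.abs_left, (u1 i).abs_right]
      exact g.2.1 _ m1 _ (mz i) (Cz s s (by rw [abs_of_pos hs]) h i))
    (fun i => by
      rw [z1'.abs_left, (u1 i).abs_right]
      exact g.2.1 _ m2 _ (mz i) (Cz s (-s) (by rw [abs_neg, abs_of_pos hs]) h i))
  omega

end Pool.Agent.P.MP_7578b2_co.All
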