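import Pool.Agent.P.MP_7578b2_co.All.Oct

/-!
Rigidity in every dimension, by passing to the traces on a hyperplane.
-/

namespace Pool.Agent.P.MP_7578b2_co.All

open Real

theorem FR.target {α β γ : Type} {a : α → α → ℝ} {b : β → β → ℝ} {c : γ → γ → ℝ}
    {P : (α → β) → Prop} {k : γ → β} (hk : ∀ x y, b (k x) (k y) = c x y) (h : FR a b P) :
    FR a c (fun φ => P (k ∘ φ)) := by
  obtain ⟨S, h1, h2, h3⟩ := h
  refine ⟨S, h1, h2, fun φ g => h3 _ ⟨fun v hv => ?_, fun v hv w hw e => ?_,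
    fun v hv w hw e => ?_⟩⟩ <;> simp only [Function.comp, hk]
  exacts [g.1 v hv, g.2.1 v hv w hw e, g.2.2 v hv w hw e]

/-- One function of finitely many images can be forced to take each value of an interval. -/
def Rig {α : Type} (a : α → α → ℝ) : Prop :=
  ∃ F : List α → ℝ, ∀ t ∈ Set.Ioo 0 (arcosh 7), ∃ l : List α,
    FR a a (fun φ => F (l.map φ) = t)

section

variable {E E' : Type} [NormedAddCommGroup E] [InnerProductSpace ℝ E]
  [NormedAddCommGroup E'] [InnerProductSpace ℝ E']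

theorem forced_tr [FiniteDimensional ℝ E'] {ι : E × ℝ → E' × ℝ}
    (hι : ∀ v w, bl (ι v) (ι w) = bl v w) {h : E' × ℝ} (hh : bl h h = 1)
    (hιh : ∀ v, bl (ι v) h = 0) {v w : E × ℝ} (hv : bl v v = 1) (hw : bl w w = 1)
    (hvw : |bl v w| < 1) :
    FR (bl (E := E')) (bl (E := E')) (fun φ => Tr (φ (ι v)) (φ (ι w)) (φ h)) := by
  obtain ⟨p, -, p1, p2, p3⟩ := cross_pt hv hw hvw
  set b := bl v w with hb
  have d0 : 0 < 1 - b ^ 2 := by have := abs_lt.mp hvw; nlinarith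
  set q := √(1 - b ^ 2) with hq
  have q0 : 0 < q := Real.sqrt_pos.mpr d0
  have q2 : q ^ 2 = 1 - b ^ 2 := Real.sq_sqrt d0.le
  set r := √(-bl p p) with hr
  have r0 : 0 < r := Real.sqrt_pos.mpr (by linarith)
  have r2 : r ^ 2 = -bl p p := Real.sq_sqrt (by linarith)
  have hιh' : ∀ v, bl h (ι v) = 0 := fun v => (bl_comm _ _).trans (hιh v)
  let f : V → E' × ℝ := fun x =>
    x.z • ι v + x.x • (q⁻¹ • (ι w - b • ι v)) + x.y • h + x.t • (r⁻¹ • ι p)
  have hf : ∀ x y, bl (f x) (f y) = B x y := fun x y => by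
    simp only [f, B, bl_add_left, bl_add_right, bl_smul_left, bl_smul_right, bl_sub_left,
      bl_sub_right, hι, hιh, hιh', hh, hv, hw, bl_comm w v, ← hb, p2, p3, bl_comm p v, bl_comm p w]
    have : bl p p = -r ^ 2 := by linarith
    rw [this]
    field_simp
    linear_combination (-(x.x * y.x * r)) * q2
  refine ((oct (E := E') q0 (b := b) (by linarith)).iso hf).mono fun φ t => ?_
  have a1 : f ⟨0, 1, 0, 0⟩ = ι v := by simp [f]
  have a2 : f ⟨0, b, q, 0⟩ = ι w := by simp [f, smul_smul, q0.ne']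
  have a3 : f ⟨0, 0, 0, 1⟩ = h := by simp [f]
  simpa only [Function.comp, a1, a2, a3] using t

theorem far_trace {a x y : ℝ} (ha : ¬ |a| ≤ 1) (hx : x ^ 2 < 1) (hy : y ^ 2 < 1) :
    (1 - x ^ 2) * (1 - y ^ 2) < (a - x * y) ^ 2 := by
  have h1 : |x * y| < 1 := by
    rw [← sq_lt_one_iff_abs_lt_one, mul_pow]
    nlinarith [sq_nonneg x, sq_nonneg y]
  have h2 : 1 - |x * y| < |a - x * y| := by
    have := abs_sub_abs_le_abs_sub a (x * y)
    linarith [not_le.mp ha]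
  have h3 : (1 - |x * y|) ^ 2 < |a - x * y| ^ 2 := pow_lt_pow_left₀ h2 (by linarith) (by norm_num)
  rw [sq_abs] at h3
  have h4 : (1 - x ^ 2) * (1 - y ^ 2) ≤ (1 - |x * y|) ^ 2 := by
    rw [abs_mul, ← sq_abs x, ← sq_abs y]
    nlinarith [sq_nonneg (|x| - |y|)]
  linarith

theorem rig_step [FiniteDimensional ℝ E'] {ι : E × ℝ → E' × ℝ}
    (hι : ∀ v w, bl (ι v) (ι w) = bl v w) {h : E' × ℝ} (hh : bl h h = 1)
    (hιh : ∀ v, bl (ι v) h = 0) {pr : E' × ℝ → E × ℝ}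
    (hpr : ∀ x y, bl (pr x) (pr y) = bl x y - bl x h * bl y h)
    (part : ∀ v : E × ℝ, bl v v = 1 → ∃ w, bl w w = 1 ∧ |bl v w| < 1)
    (R : Rig (bl (E := E))) : Rig (bl (E := E')) := by
  obtain ⟨F, hF⟩ := R
  have ex : ∀ h' : E' × ℝ, ∃ ρ : E' × ℝ → E × ℝ, bl h' h' = 1 →
      ∀ x y, bl (ρ x) (ρ y) = bl x y - bl x h' * bl y h' := fun h' => by
    by_cases u : bl h' h' = 1
    · obtain ⟨f, f1, f2⟩ := exists_iso (a := h') (b := h) (by rw [u, hh]) (by rw [u]; norm_num)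
      refine ⟨fun x => pr (f x), fun _ x y => ?_⟩
      rw [hpr, f1, ← f1 x h', ← f1 y h']
      rcases f2 with e | e <;> simp [e]
    · exact ⟨pr, fun e => absurd e u⟩
  choose ρ hρ using ex
  let τ : E' × ℝ → E' × ℝ → E × ℝ := fun h' x => (√(1 - bl x h' ^ 2))⁻¹ • ρ h' x
  have hτ : ∀ h' x y, bl h' h' = 1 → bl (τ h' x) (τ h' y) =
      (bl x y - bl x h' * bl y h') / (√(1 - bl x h' ^ 2) * √(1 - bl y h' ^ 2)) := by
    intro h' x y u
    simp only [τ, bl_smul_left, bl_smul_right, hρ h' u]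
    rw [div_eq_mul_inv, mul_inv]; ring
  refine ⟨fun l => F (l.tail.map (τ (l.headD h))), fun t ht => ?_⟩
  obtain ⟨l, S, S1, S2, S3⟩ := hF t ht
  refine ⟨h :: l.map ι, ?_⟩
  have := S1.to_subtype
  have f1 : FR (bl (E := E')) (bl (E := E')) (GR bl bl (insert h (ι '' S))) := by
    refine FR.self ((S1.image ι).insert h) ?_
    rintro _ (rfl | ⟨v, hv, rfl⟩)
    · exact hh
    · rw [hι]; exact S2 v hv
  have f2 : ∀ v : S, FR (bl (E := E')) (bl (E := E'))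
      (fun φ => bl (φ (ι v)) (φ h) ^ 2 < 1) := fun v => by
    obtain ⟨w, w1, w2⟩ := part v (S2 v v.2)
    exact (forced_tr hι hh hιh (S2 v v.2) w1 w2).mono fun φ t => t.1
  have f3 : ∀ p : {p : S × S // |bl p.1.1 p.2.1| < 1}, FR (bl (E := E')) (bl (E := E'))
      (fun φ => Tr (φ (ι p.1.1)) (φ (ι p.1.2)) (φ h)) := fun p =>
    forced_tr hι hh hιh (S2 _ p.1.1.2) (S2 _ p.1.2.2) p.2
  refine ((f1.and (FR.all f2)).and (FR.all f3)).mono fun φ ⟨⟨g, a2⟩, a3⟩ => ?_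
  have u := g.1 h (Or.inl rfl)
  have pos : ∀ v ∈ S, 0 < 1 - bl (φ (ι v)) (φ h) ^ 2 := fun v hv => sub_pos.mpr (a2 ⟨v, hv⟩)
  have cmp : ∀ v ∈ S, ∀ w ∈ S, |bl (τ (φ h) (φ (ι v))) (τ (φ h) (φ (ι w)))| ≤ 1 ↔
      (bl (φ (ι v)) (φ (ι w)) - bl (φ (ι v)) (φ h) * bl (φ (ι w)) (φ h)) ^ 2 ≤
        (1 - bl (φ (ι v)) (φ h) ^ 2) * (1 - bl (φ (ι w)) (φ h) ^ 2) := fun v hv w hw => by
    rw [hτ _ _ _ u, ← sq_le_one_iff_abs_le_one, div_pow, mul_pow, Real.sq_sqrt (pos v hv).le,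
      Real.sq_sqrt (pos w hw).le, div_le_one (mul_pos (pos v hv) (pos w hw))]
  have := S3 (τ (φ h) ∘ φ ∘ ι) ⟨fun v hv => ?_, fun v hv w hw e => ?_, fun v hv w hw e => ?_⟩
  · simpa only [List.map_cons, List.tail_cons, List.headD_cons, List.map_map] using this
  · simp only [Function.comp]
    rw [hτ _ _ _ u, g.1 _ (Or.inr ⟨v, hv, rfl⟩), Real.mul_self_sqrt (pos v hv).le, ← sq,
      div_self (pos v hv).ne']
  · exact (cmp v hv w hw).mpr (a3 ⟨(⟨v, hv⟩, ⟨w, hw⟩), e⟩).2.2.le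
  · simp only [Function.comp]
    rw [cmp v hv w hw, not_le]
    exact far_trace (g.2.2 _ (Or.inr ⟨v, hv, rfl⟩) _ (Or.inr ⟨w, hw, rfl⟩) (by rwa [hι]))
      (a2 ⟨v, hv⟩) (a2 ⟨w, hw⟩)

end

theorem bl_euc {n : ℕ} (v w : EuclideanSpace ℝ (Fin n) × ℝ) :
    bl v w = ∑ i, v.1 i * w.1 i - v.2 * w.2 := by
  unfold bl
  simp only [PiLp.inner_apply, RCLike.inner_apply, conj_trivial, mul_comm]

theorem rig_base : Rig (bl (E := EuclideanSpace ℝ (Fin 3))) := by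
  let j : V → EuclideanSpace ℝ (Fin 3) × ℝ := fun v => (!₂[v.z, v.x, v.y], v.t)
  let k : EuclideanSpace ℝ (Fin 3) × ℝ → V := fun x => ⟨x.2, x.1 0, x.1 1, x.1 2⟩
  have hj : ∀ v w, bl (j v) (j w) = B v w := fun v w => by
    simp [bl_euc, j, B, Fin.sum_univ_three]
  have hk : ∀ x y, B (k x) (k y) = bl x y := fun x y => by
    simp [bl_euc, k, B, Fin.sum_univ_three]
  refine ⟨fun l => arcosh |bl (l.headD 0) (l.tail.headD 0)|, fun t ht =>
    ⟨[j (C 0), j (C t)], ?_⟩⟩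
  refine (((forced_eq ht.1 ht.2).target hk).iso hj).mono fun φ e => ?_
  simpa [Dst, hk] using e

/-- Every slice has an orthogonal frame of a second slice and an interior point. -/
theorem exists_frame {n : ℕ} {v : EuclideanSpace ℝ (Fin (n + 2)) × ℝ} (hv : bl v v = 1) :
    ∃ w T : EuclideanSpace ℝ (Fin (n + 2)) × ℝ, bl w w = 1 ∧ bl T T = -1 ∧ bl v w = 0 ∧
      bl v T = 0 ∧ bl w T = 0 := by
  let a : EuclideanSpace ℝ (Fin (n + 2)) × ℝ := (EuclideanSpace.single 0 1, 0)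
  let b : EuclideanSpace ℝ (Fin (n + 2)) × ℝ := (EuclideanSpace.single 1 1, 0)
  have aa : bl a a = 1 := by simp [bl, a]
  have bb : bl b b = 1 := by simp [bl, b]
  have ab : bl a b = 0 := by simp [bl, a, b, EuclideanSpace.inner_single_left]
  obtain ⟨f, f1, f2⟩ := exists_iso (a := a) (b := v) (by rw [aa, hv]) (by rw [aa]; norm_num)
  refine ⟨f b, f (0, 1), by rw [f1, bb], by rw [f1]; simp [bl], ?_, ?_, by rw [f1]; simp [bl, b]⟩
  · rw [← abs_eq_zero, ← f2.abs_left, f1, ab, abs_zero]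
  · rw [← abs_eq_zero, ← f2.abs_left, f1]; simp [bl, a]

theorem rig_all (n : ℕ) : Rig (bl (E := EuclideanSpace ℝ (Fin (n + 3)))) := by
  induction n with
  | zero => exact rig_base
  | succ n ih =>
    refine rig_step (E := EuclideanSpace ℝ (Fin (n + 3)))
      (ι := fun v => (WithLp.toLp 2 (Fin.cons 0 fun i => v.1 i), v.2))
      (h := (WithLp.toLp 2 (Fin.cons 1 fun _ => 0), 0))
      (pr := fun x => (WithLp.toLp 2 fun i => x.1 i.succ, x.2)) (fun v w => ?_) ?_ (fun v => ?_)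
      (fun x y => ?_) (fun v hv => ?_) ih
    · rw [bl_euc, bl_euc, Fin.sum_univ_succ]; simp
    · rw [bl_euc, Fin.sum_univ_succ]; simp
    · rw [bl_euc, Fin.sum_univ_succ]; simp
    · rw [bl_euc, bl_euc x y, bl_euc x, bl_euc y, Fin.sum_univ_succ (n := n + 3),
        Fin.sum_univ_succ (n := n + 3), Fin.sum_univ_succ (n := n + 3)]
      simp
      ring
    · obtain ⟨w, -, w1, -, w2, -⟩ := exists_frame hv
      exact ⟨w, w1, by rw [w2]; simp⟩

end Pool.Agent.P.MP_7578b2_co.All
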