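import Pool.Agent.P.MP_7578b2_co.Squeeze

/-!
Rigidity in dimension two from strict crossings and strict disjointness only.
-/

namespace Pool.Agent.P.MP_7578b2_co.All

open Real Filter Topology

section Gen

variable {α β γ : Type}

/-- `φ` keeps unit vectors, sends strictly crossing pairs to meeting pairs and disjoint pairs to
disjoint pairs. -/
def GR (a : α → α → ℝ) (b : β → β → ℝ) (S : Set α) (φ : α → β) : Prop :=
  (∀ v ∈ S, b (φ v) (φ v) = 1) ∧ (∀ v ∈ S, ∀ w ∈ S, |a v w| < 1 → |b (φ v) (φ w)| ≤ 1) ∧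
    ∀ v ∈ S, ∀ w ∈ S, ¬ |a v w| ≤ 1 → ¬ |b (φ v) (φ w)| ≤ 1

/-- A property of representations is forced by some countable configuration. -/
def FR (a : α → α → ℝ) (b : β → β → ℝ) (P : (α → β) → Prop) : Prop :=
  ∃ S : Set α, S.Countable ∧ (∀ v ∈ S, a v v = 1) ∧ ∀ φ, GR a b S φ → P φ

variable {a : α → α → ℝ} {b : β → β → ℝ}

theorem GR.mono {S S' : Set α} {φ : α → β} (h : GR a b S' φ) (hs : S ⊆ S') : GR a b S φ :=
  ⟨fun v hv => h.1 v (hs hv), fun v hv w hw => h.2.1 v (hs hv) w (hs hw),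
    fun v hv w hw => h.2.2 v (hs hv) w (hs hw)⟩

theorem FR.mono {P Q : (α → β) → Prop} (h : FR a b P) (hPQ : ∀ φ, P φ → Q φ) : FR a b Q := by
  obtain ⟨S, h1, h2, h3⟩ := h
  exact ⟨S, h1, h2, fun φ g => hPQ φ (h3 φ g)⟩

theorem FR.all {ι : Type} [Countable ι] {P : ι → (α → β) → Prop} (h : ∀ n, FR a b (P n)) :
    FR a b (fun φ => ∀ n, P n φ) := by
  choose S h1 h2 h3 using h
  refine ⟨⋃ n, S n, Set.countable_iUnion h1, ?_, fun φ g n => h3 n φ (g.mono ?_)⟩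
  · intro v hv
    obtain ⟨n, hn⟩ := Set.mem_iUnion.mp hv
    exact h2 n v hn
  · exact Set.subset_iUnion S n

theorem FR.and {P Q : (α → β) → Prop} (h : FR a b P) (h' : FR a b Q) :
    FR a b (fun φ => P φ ∧ Q φ) := by
  obtain ⟨S, h1, h2, h3⟩ := h
  obtain ⟨S', h1', h2', h3'⟩ := h'
  refine ⟨S ∪ S', h1.union h1', ?_, fun φ g =>
    ⟨h3 φ (g.mono Set.subset_union_left), h3' φ (g.mono Set.subset_union_right)⟩⟩
  rintro v (hv | hv)
  · exact h2 v hv
  · exact h2' v hv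

theorem FR.self {S : Set α} (h1 : S.Countable) (h2 : ∀ v ∈ S, a v v = 1) :
    FR a b (GR a b S) := ⟨S, h1, h2, fun _ g => g⟩

theorem FR.iso {c : γ → γ → ℝ} {P : (α → β) → Prop} {f : α → γ}
    (hf : ∀ v w, c (f v) (f w) = a v w) (h : FR a b P) : FR c b (fun φ => P (φ ∘ f)) := by
  obtain ⟨S, h1, h2, h3⟩ := h
  refine ⟨f '' S, h1.image f, ?_, fun φ g => h3 _ ⟨fun v hv => g.1 _ ⟨v, hv, rfl⟩, ?_, ?_⟩⟩
  · rintro _ ⟨v, hv, rfl⟩
    rw [hf]; exact h2 v hv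
  · intro v hv w hw e
    exact g.2.1 _ ⟨v, hv, rfl⟩ _ ⟨w, hw, rfl⟩ (by rwa [hf])
  · intro v hv w hw e
    exact g.2.2 _ ⟨v, hv, rfl⟩ _ ⟨w, hw, rfl⟩ (by rwa [hf])

end Gen

/-- Strict crossing. -/
def X (v w : V) : Prop := |B v w| < 1

theorem GR.x {S : Set V} {φ : V → V} (g : GR B B S φ) {v w : V} (h : X v w) (hv : v ∈ S)
    (hw : w ∈ S) : M (φ v) (φ w) := g.2.1 v hv w hw h

theorem GR.n {S : Set V} {φ : V → V} (g : GR B B S φ) {v w : V} (h : ¬ M v w) (hv : v ∈ S)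
    (hw : w ∈ S) : ¬ M (φ v) (φ w) := g.2.2 v hv w hw h

/-- Three pairwise disjoint discs with strictly crossing witnesses. -/
structure TriX (D1 D2 D3 W1 W2 W3 : V) : Prop where
  u1 : B D1 D1 = 1
  u2 : B D2 D2 = 1
  u3 : B D3 D3 = 1
  v1 : B W1 W1 = 1
  v2 : B W2 W2 = 1
  v3 : B W3 W3 = 1
  h12 : ¬ M D1 D2
  h23 : ¬ M D2 D3
  h13 : ¬ M D1 D3
  x1 : ¬ M W1 D1
  x2 : X W1 D2
  x3 : X W1 D3
  y1 : X W2 D1
  y2 : ¬ M W2 D2
  y3 : X W2 D3
  z1 : X W3 D1
  z2 : X W3 D2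
  z3 : ¬ M W3 D3

theorem TriX.map {S : Set V} {φ : V → V} (g : GR B B S φ) {D1 D2 D3 W1 W2 W3 : V}
    (h : TriX D1 D2 D3 W1 W2 W3) (a1 : D1 ∈ S) (a2 : D2 ∈ S) (a3 : D3 ∈ S)
    (b1 : W1 ∈ S) (b2 : W2 ∈ S) (b3 : W3 ∈ S) :
    Tri (φ D1) (φ D2) (φ D3) (φ W1) (φ W2) (φ W3) :=
  ⟨g.1 _ a1, g.1 _ a2, g.1 _ a3, g.1 _ b1, g.1 _ b2, g.1 _ b3,
    g.n h.h12 a1 a2, g.n h.h23 a2 a3, g.n h.h13 a1 a3,
    g.n h.x1 b1 a1, g.x h.x2 b1 a2, g.x h.x3 b1 a3,
    g.x h.y1 b2 a1, g.n h.y2 b2 a2, g.x h.y3 b2 a3,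
    g.x h.z1 b3 a1, g.x h.z2 b3 a2, g.n h.z3 b3 a3⟩

theorem X_C_P {s τ T : ℝ} (hs : |s| ≤ τ) (hT : 0 ≤ T) (h : sinh τ * T < 1) (μ α : ℝ) :
    X (C s) (Pc T μ α) := by
  unfold X
  rw [B_C_P, abs_neg, abs_mul, abs_of_nonneg hT, abs_sinh]
  exact lt_of_le_of_lt (mul_le_mul_of_nonneg_right (sinh_le_sinh.mpr hs) hT) h

theorem X_C_St {s r h : ℝ} (hh : 0 < h) : X (C s) (St r h) ↔ |s - r| < h := by
  have h0 := sinh_pos_iff.mpr hh
  unfold X St
  rw [show C s = boost r (C (s - r)) by rw [boost_C]; simp, boost_iso, B_C_P, abs_neg, abs_mul,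
    abs_sinh, abs_of_pos (by positivity : 0 < 1 / sinh h), mul_one_div, div_lt_one h0,
    sinh_lt_sinh]

theorem tri_model {T μ : ℝ} (hT : 0 < T) (hμ : 0 < μ) (h : μ ^ 2 = 1 + T ^ 2)
    (h1 : 1 / 3 < T ^ 2) (h2 : T ^ 2 ≤ 3) :
    TriX (Pc T μ (π / 6)) (Pc T μ (5 * π / 6)) (Pc T μ (3 * π / 2))
      (Pc (3 / 4) (5 / 4) (7 * π / 6)) (Pc (3 / 4) (5 / 4) (11 * π / 6))
      (Pc (3 / 4) (5 / 4) (π / 2)) := by
  have w : (5 / 4 : ℝ) ^ 2 = 1 + (3 / 4) ^ 2 := by norm_num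
  have μ1 : 1 < μ := by nlinarith
  have μ2 : μ ≤ 2 := by nlinarith
  have T1 : 1 / 2 < T := by nlinarith
  have T2 : T < 2 := by nlinarith
  have n1 : ∀ a b, cos (a - b) = -(1 / 2) → ¬ M (Pc T μ a) (Pc T μ b) := fun a b e m => by
    have := m.ge
    rw [B_P, e] at this; nlinarith
  have n2 : ∀ a b, cos (a - b) = -1 → ¬ M (Pc (3 / 4) (5 / 4) a) (Pc T μ b) := fun a b e m => by
    have := m.ge
    rw [B_P, e] at this; nlinarith
  have n3 : ∀ a b, cos (a - b) = 1 / 2 → X (Pc (3 / 4) (5 / 4) a) (Pc T μ b) := fun a b e => by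
    unfold X
    rw [B_P, e, abs_lt]; constructor <;> nlinarith
  refine ⟨P_unit h _, P_unit h _, P_unit h _, P_unit w _, P_unit w _, P_unit w _,
    n1 _ _ ?_, n1 _ _ ?_, n1 _ _ ?_, n2 _ _ ?_, n3 _ _ ?_, n3 _ _ ?_, n3 _ _ ?_, n2 _ _ ?_,
    n3 _ _ ?_, n3 _ _ ?_, n3 _ _ ?_, n2 _ _ ?_⟩
  · rw [show π / 6 - 5 * π / 6 = -(2 * π / 3) by ring, cos_neg, cos_a]
  · rw [show 5 * π / 6 - 3 * π / 2 = -(2 * π / 3) by ring, cos_neg, cos_a]
  · rw [show π / 6 - 3 * π / 2 = -(4 * π / 3) by ring, cos_neg, cos_b]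
  · rw [show 7 * π / 6 - π / 6 = π by ring, cos_pi]
  · rw [show 7 * π / 6 - 5 * π / 6 = π / 3 by ring, cos_pi_div_three]
  · rw [show 7 * π / 6 - 3 * π / 2 = -(π / 3) by ring, cos_neg, cos_pi_div_three]
  · rw [show 11 * π / 6 - π / 6 = 5 * π / 3 by ring, cos_c]
  · rw [show 11 * π / 6 - 5 * π / 6 = π by ring, cos_pi]
  · rw [show 11 * π / 6 - 3 * π / 2 = π / 3 by ring, cos_pi_div_three]
  · rw [show π / 2 - π / 6 = π / 3 by ring, cos_pi_div_three]
  · rw [show π / 2 - 5 * π / 6 = -(π / 3) by ring, cos_neg, cos_pi_div_three]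
  · rw [show π / 2 - 3 * π / 2 = -π by ring, cos_neg, cos_pi]

theorem exists_tri {τ : ℝ} (hτ : 0 < τ) (h : cosh (2 * τ) < 7) :
    ∃ D1 D2 D3 W1 W2 W3, TriX D1 D2 D3 W1 W2 W3 ∧
      ∀ s, |s| ≤ τ → X (C s) D1 ∧ X (C s) D2 ∧ X (C s) D3 := by
  have h0 := sinh_pos_iff.mpr hτ
  have h1 : sinh τ ^ 2 < 3 := by
    rw [cosh_two_mul, cosh_sq] at h; linarith
  obtain ⟨T, t0, t1, t2, t3⟩ : ∃ T : ℝ, 0 < T ∧ 1 / 3 < T ^ 2 ∧ T ^ 2 ≤ 3 ∧ sinh τ * T < 1 := by
    have a1 : 1 / 3 < min 1 (1 / sinh τ ^ 2) := by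
      refine lt_min (by norm_num) ?_
      rw [div_lt_div_iff₀ (by norm_num) (by positivity)]; linarith
    obtain ⟨q, q1, q2⟩ := exists_between a1
    have q0 : 0 < q := by linarith
    have q3 : q < 1 := q2.trans_le (min_le_left _ _)
    have q4 : q < 1 / sinh τ ^ 2 := q2.trans_le (min_le_right _ _)
    rw [lt_div_iff₀ (by positivity)] at q4
    have e := Real.sq_sqrt q0.le
    refine ⟨√q, Real.sqrt_pos.mpr q0, by rwa [e], by rw [e]; linarith, ?_⟩
    apply lt_of_pow_lt_pow_left₀ 2 (by norm_num)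
    rw [mul_pow, e]; linarith
  have hμ : 0 < √(1 + T ^ 2) := Real.sqrt_pos.mpr (by positivity)
  exact ⟨_, _, _, _, _, _, tri_model t0 hμ (Real.sq_sqrt (by positivity)) t1 t2,
    fun s hs => ⟨X_C_P hs t0.le t3 _ _, X_C_P hs t0.le t3 _ _, X_C_P hs t0.le t3 _ _⟩⟩

theorem forced_upper0 {τ : ℝ} (hτ : 0 < τ) (h : cosh (2 * τ) < 7) :
    FR B B (fun φ => Dst φ (-τ) τ < arcosh 7) := by
  obtain ⟨D1, D2, D3, W1, W2, W3, T, hD⟩ := exists_tri hτ h
  have hA := hD (-τ) (by rw [abs_neg, abs_of_pos hτ])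
  have hC := hD τ (by rw [abs_of_pos hτ])
  have hne : ¬ M (C (-τ)) (C τ) := not_M_C (by linarith)
  refine ⟨{C (-τ), C τ, D1, D2, D3, W1, W2, W3}, Set.Finite.countable (Set.toFinite _), ?_, ?_⟩
  · intro v hv
    simp only [Set.mem_insert_iff, Set.mem_singleton_iff] at hv
    rcases hv with rfl | rfl | rfl | rfl | rfl | rfl | rfl | rfl
    exacts [C_unit _, C_unit _, T.u1, T.u2, T.u3, T.v1, T.v2, T.v3]
  · intro φ g
    have hne' : ¬ M (φ (C (-τ))) (φ (C τ)) := g.n hne (by simp) (by simp)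
    have := upper_gadget (g.1 (C (-τ)) (by simp)) (g.1 (C τ) (by simp)) hne'
      (T.map g (by simp) (by simp) (by simp) (by simp) (by simp) (by simp))
      (g.x hA.1 (by simp) (by simp)) (g.x hA.2.1 (by simp) (by simp))
      (g.x hA.2.2 (by simp) (by simp))
      (g.x hC.1 (by simp) (by simp)) (g.x hC.2.1 (by simp) (by simp))
      (g.x hC.2.2 (by simp) (by simp))
    unfold M at hne'
    exact (arcosh_lt_arcosh (by linarith [not_le.mp hne']) (by norm_num)).mpr this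

theorem forced_between0 {τ e : ℝ} (h : cosh (2 * τ) < 7) (e1 : -τ < e) (e2 : e < τ) :
    FR B B (fun φ => Dst φ (-τ) e + Dst φ e τ ≤ Dst φ (-τ) τ) := by
  have hτ : 0 < τ := by linarith
  obtain ⟨D1, D2, D3, W1, W2, W3, T, hD⟩ := exists_tri hτ h
  have hA := hD (-τ) (by rw [abs_neg, abs_of_pos hτ])
  have hC := hD τ (by rw [abs_of_pos hτ])
  have hE := hD e (abs_le.mpr ⟨e1.le, e2.le⟩)
  set WA := St ((e - τ) / 2) τ with hWA
  set WC := St ((e + τ) / 2) τ with hWC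
  have p1 : X (C (-τ)) WA := (X_C_St hτ).mpr (abs_lt.mpr ⟨by linarith, by linarith⟩)
  have p2 : X (C e) WA := (X_C_St hτ).mpr (abs_lt.mpr ⟨by linarith, by linarith⟩)
  have p3 : ¬ M (C τ) WA := fun m => by
    have := (abs_le.mp ((M_C_St hτ).mp m)).2; linarith
  have q1 : ¬ M (C (-τ)) WC := fun m => by
    have := (abs_le.mp ((M_C_St hτ).mp m)).1; linarith
  have q2 : X (C e) WC := (X_C_St hτ).mpr (abs_lt.mpr ⟨by linarith, by linarith⟩)
  have q3 : X (C τ) WC := (X_C_St hτ).mpr (abs_lt.mpr ⟨by linarith, by linarith⟩)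
  refine ⟨{C (-τ), C τ, C e, D1, D2, D3, W1, W2, W3, WA, WC},
    Set.Finite.countable (Set.toFinite _), ?_, ?_⟩
  · intro v hv
    simp only [Set.mem_insert_iff, Set.mem_singleton_iff] at hv
    rcases hv with rfl | rfl | rfl | rfl | rfl | rfl | rfl | rfl | rfl | rfl | rfl
    exacts [C_unit _, C_unit _, C_unit _, T.u1, T.u2, T.u3, T.v1, T.v2, T.v3, St_unit _ hτ,
      St_unit _ hτ]
  · intro φ g
    exact between_gadget (g.1 (C (-τ)) (by simp)) (g.1 (C τ) (by simp)) (g.1 (C e) (by simp))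
      (g.1 WA (by simp)) (g.1 WC (by simp))
      (g.n (not_M_C (by linarith)) (by simp) (by simp))
      (g.n (not_M_C (by linarith)) (by simp) (by simp))
      (g.n (not_M_C (by linarith)) (by simp) (by simp))
      (T.map g (by simp) (by simp) (by simp) (by simp) (by simp) (by simp))
      (g.x hA.1 (by simp) (by simp)) (g.x hA.2.1 (by simp) (by simp))
      (g.x hA.2.2 (by simp) (by simp))
      (g.x hC.1 (by simp) (by simp)) (g.x hC.2.1 (by simp) (by simp))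
      (g.x hC.2.2 (by simp) (by simp))
      (g.x hE.1 (by simp) (by simp)) (g.x hE.2.1 (by simp) (by simp))
      (g.x hE.2.2 (by simp) (by simp))
      (g.x p1 (by simp) (by simp)) (g.x p2 (by simp) (by simp))
      (g.n p3 (by simp) (by simp)) (g.n q1 (by simp) (by simp))
      (g.x q2 (by simp) (by simp)) (g.x q3 (by simp) (by simp))

theorem forced_lower0 {τ : ℝ} {m : ℕ} (hm : 2 ≤ m) (hτ : 0 < τ)
    (h1 : 2 / cos (π / (3 * m)) ^ 2 - 1 < cosh (2 * τ)) (h2 : cosh (2 * τ) ≤ 3 / 2) :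
    FR B B (fun φ => arcosh (2 / cos (π / (3 * m)) ^ 2 - 1) ≤ Dst φ (-τ) τ) := by
  have hm' : (2 : ℝ) ≤ m := by exact_mod_cast hm
  set x := π / (3 * m) with hx
  have x0 : 0 < x := by positivity
  have xm : 3 * m * x = π := by rw [hx]; field_simp
  have x1 : x ≤ π / 4 := by nlinarith
  have sx : 0 < sin x := sin_pos_of_pos_of_lt_pi x0 (by linarith [pi_pos])
  have cx : 0 < cos x := cos_pos_of_mem_Ioo ⟨by linarith, by linarith [pi_pos]⟩
  have ss := cos_sq_add_sin_sq x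
  have σ0 := sinh_pos_iff.mpr hτ
  have κ0 := cosh_pos τ
  have hk := cosh_sq τ
  rw [cosh_two_mul, cosh_sq] at h1 h2
  set σ := sinh τ with hσ
  set κ := cosh τ with hκ
  have κ1 : 1 < κ := by nlinarith
  have σ1 : σ ≤ 1 / 2 := by nlinarith
  have κ2 : κ < 2 := by nlinarith
  have Tσ0 : 1 / σ < cos x / sin x := by
    have a : sin x ^ 2 < (σ * cos x) ^ 2 := by
      rw [sub_lt_iff_lt_add, div_lt_iff₀ (by positivity)] at h1
      nlinarith
    have b : sin x < σ * cos x := lt_of_pow_lt_pow_left₀ 2 (by positivity) a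
    rw [div_lt_div_iff₀ σ0 sx]; linarith
  obtain ⟨T, Ta, Tb⟩ := exists_between Tσ0
  rw [div_lt_iff₀ σ0] at Ta
  rw [lt_div_iff₀ sx] at Tb
  have T0 : 0 < T := by nlinarith
  have T1 : 2 ≤ T := by nlinarith
  have Tσ : 1 < σ * T := by linarith
  set μ := √(1 + T ^ 2) with hμ
  have μ0 : 0 < μ := Real.sqrt_pos.mpr (by positivity)
  have μT : μ ^ 2 = 1 + T ^ 2 := Real.sq_sqrt (by positivity)
  have d1 : T < μ := by nlinarith
  have d2 : μ - T ≤ 1 / 4 := by nlinarith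
  have d3 : (μ - T) * 2 < σ := by nlinarith
  have r3 : √3 ^ 2 = 3 := Real.sq_sqrt (by norm_num)
  have r30 : 0 ≤ √3 := Real.sqrt_nonneg _
  have r31 : 1 < √3 := by nlinarith
  have r32 : √3 < 2 := by nlinarith
  have rσ : σ * √3 < 1 := by nlinarith
  have TT := tri_model (T := √3) (μ := 2) (by linarith) (by norm_num) (by rw [r3]; norm_num)
    (by rw [r3]; norm_num) (by rw [r3])
  set c := κ / σ with hc
  have cσ : σ * c = κ := by rw [hc]; field_simp
  have c0 : 0 < c := div_pos κ0 σ0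
  let E : ℕ → V := fun k => Pc T μ (k * (2 * x))
  let WA : ℕ → V := fun k => Wt c (-1) (k * (2 * x))
  let WC : ℕ → V := fun k => Wt c 1 (k * (2 * x))
  have aτ : |-τ| ≤ τ := by rw [abs_neg, abs_of_pos hτ]
  have bτ : |τ| ≤ τ := by rw [abs_of_pos hτ]
  have meet : ∀ a b, cos (a - b) = √3 / 2 → X (Pc T μ a) (Pc √3 2 b) := fun a b e => by
    unfold X
    rw [B_P, e, abs_lt]; constructor <;> nlinarith
  have avoid : ∀ (k : ℕ), k ≤ m → ∀ a b, cos (a - b) = cos (k * (2 * x) + π / 2) →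
      ¬ M (Pc T μ a) (Pc √3 2 b) := fun k hk a b e mm => by
    have hk' : (k : ℝ) ≤ m := by exact_mod_cast hk
    have k0 : (0 : ℝ) ≤ k * (2 * x) := by positivity
    have : cos (k * (2 * x) + π / 2) ≤ 0 :=
      cos_nonpos_of_pi_div_two_le_of_le (by linarith) (by nlinarith)
    have t := mm.ge
    rw [B_P, e] at t
    nlinarith [mul_nonneg μ0.le (neg_nonneg.mpr this)]
  have wE : ∀ e α, X (Pc T μ α) (Wt c e α) := fun e α => by
    unfold X
    have b0 : 0 < c * (μ - T) := mul_pos c0 (by linarith)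
    have b1 : c * (μ - T) * 2 < κ := by
      rw [← cσ, mul_assoc, mul_comm σ]
      exact mul_lt_mul_of_pos_left d3 c0
    rw [B_P_Wt, abs_lt]; constructor <;> linarith
  let S0 : Set V := {C (-τ), C τ, Pc √3 2 (π / 6), Pc √3 2 (5 * π / 6), Pc √3 2 (3 * π / 2),
      Pc (3 / 4) (5 / 4) (7 * π / 6), Pc (3 / 4) (5 / 4) (11 * π / 6), Pc (3 / 4) (5 / 4) (π / 2)}
  let S : Set V := S0 ∪ (Set.range E ∪ (Set.range WA ∪ Set.range WC))
  have s1 : C (-τ) ∈ S := Or.inl (by simp [S0])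
  have s2 : C τ ∈ S := Or.inl (by simp [S0])
  have s3 : Pc √3 2 (π / 6) ∈ S := Or.inl (by simp [S0])
  have s4 : Pc √3 2 (5 * π / 6) ∈ S := Or.inl (by simp [S0])
  have s5 : Pc √3 2 (3 * π / 2) ∈ S := Or.inl (by simp [S0])
  have s6 : Pc (3 / 4) (5 / 4) (7 * π / 6) ∈ S := Or.inl (by simp [S0])
  have s7 : Pc (3 / 4) (5 / 4) (11 * π / 6) ∈ S := Or.inl (by simp [S0])
  have s8 : Pc (3 / 4) (5 / 4) (π / 2) ∈ S := Or.inl (by simp [S0])
  refine ⟨S,
    (Set.Finite.countable (Set.toFinite _)).union ((Set.countable_range _).union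
      ((Set.countable_range _).union (Set.countable_range _))), ?_, ?_⟩
  · rintro v (hv | ⟨k, rfl⟩ | ⟨k, rfl⟩ | ⟨k, rfl⟩)
    · simp only [S0, Set.mem_insert_iff, Set.mem_singleton_iff] at hv
      rcases hv with rfl | rfl | rfl | rfl | rfl | rfl | rfl | rfl
      exacts [C_unit _, C_unit _, TT.u1, TT.u2, TT.u3, TT.v1, TT.v2, TT.v3]
    · exact P_unit μT _
    · exact Wt_unit _ (by norm_num) _
    · exact Wt_unit _ (by norm_num) _
  · intro φ g
    have mE : ∀ k, E k ∈ S := fun k => Or.inr (Or.inl ⟨k, rfl⟩)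
    have mA : ∀ k, WA k ∈ S := fun k => Or.inr (Or.inr (Or.inl ⟨k, rfl⟩))
    have mC : ∀ k, WC k ∈ S := fun k => Or.inr (Or.inr (Or.inr ⟨k, rfl⟩))
    have := lower_gadget (g.1 (C (-τ)) s1) (g.1 (C τ) s2)
      (g.n (not_M_C (by linarith)) s1 s2)
      (TT.map g s3 s4 s5 s6 s7 s8)
      (g.x (X_C_P aτ r30 rσ _ _) s1 s3) (g.x (X_C_P aτ r30 rσ _ _) s1 s4)
      (g.x (X_C_P aτ r30 rσ _ _) s1 s5) (g.x (X_C_P bτ r30 rσ _ _) s2 s3)
      (g.x (X_C_P bτ r30 rσ _ _) s2 s4) (g.x (X_C_P bτ r30 rσ _ _) s2 s5)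
      m (by omega) (fun k => φ (E k)) (fun k => φ (WA k)) (fun k => φ (WC k))
      (fun k => g.1 _ (mE k)) (fun k => g.1 _ (mA k)) (fun k => g.1 _ (mC k))
      (fun k => g.n (fun mm => by
        have := mm.le
        simp only [E, B_C_P, sinh_neg] at this; linarith) s1 (mE k))
      (fun k => g.n (fun mm => by
        have := mm.ge
        simp only [E, B_C_P] at this; linarith) s2 (mE k))
      (fun k => g.x (by
        unfold X
        simp only [WA, B_C_Wt, sinh_neg, cosh_neg]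
        rw [abs_lt]; constructor <;> linarith) s1 (mA k))
      (fun k => g.x (wE _ _) (mE k) (mA k))
      (fun k => g.n (fun mm => by
        have := mm.ge
        simp only [WA, B_C_Wt] at this; linarith) s2 (mA k))
      (fun k => g.n (fun mm => by
        have := mm.le
        simp only [WC, B_C_Wt, sinh_neg, cosh_neg] at this; linarith) s1 (mC k))
      (fun k => g.x (wE _ _) (mE k) (mC k))
      (fun k => g.x (by
        unfold X
        simp only [WC, B_C_Wt]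
        rw [abs_lt]; constructor <;> linarith) s2 (mC k))
      (fun k => g.x (by
        unfold X
        simp only [E, B_P]
        rw [show (k : ℝ) * (2 * x) - ((k + 1 : ℕ) : ℝ) * (2 * x) = -(2 * x) by push_cast; ring,
          cos_neg, cos_two_mul]
        have e1 : μ * μ * (2 * cos x ^ 2 - 1) - T * T =
            1 - 2 * sin x ^ 2 - 2 * (T * sin x) ^ 2 := by
          rw [← sq μ, μT, show cos x ^ 2 = 1 - sin x ^ 2 by linarith]; ring
        have e2 : (T * sin x) ^ 2 < cos x ^ 2 := pow_lt_pow_left₀ Tb (by positivity) (by norm_num)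
        have e3 : 0 < sin x ^ 2 := by positivity
        rw [e1, abs_lt]; constructor <;> nlinarith [sq_nonneg (T * sin x)]) (mE k) (mE (k + 1)))
      (by
        show φ (E (3 * m)) = φ (E 0)
        congr 1
        simp only [E, Pc]
        rw [show ((3 * m : ℕ) : ℝ) * (2 * x) = 2 * π by push_cast; linarith]
        simp)
      (g.x (meet _ _ (by
        rw [show ((0 : ℕ) : ℝ) * (2 * x) - π / 6 = -(π / 6) by push_cast; ring, cos_neg,
          cos_pi_div_six])) (mE 0) s3)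
      (g.x (meet _ _ (by
        rw [show (m : ℝ) * (2 * x) - 5 * π / 6 = -(π / 6) by linarith, cos_neg,
          cos_pi_div_six])) (mE m) s4)
      (g.x (meet _ _ (by
        rw [show ((2 * m : ℕ) : ℝ) * (2 * x) - 3 * π / 2 = -(π / 6) by push_cast; linarith,
          cos_neg, cos_pi_div_six])) (mE (2 * m)) s5)
      (fun k hk => g.n (avoid k hk _ _ (by
        rw [show (k : ℝ) * (2 * x) + π / 2 = (k * (2 * x) - 3 * π / 2) + 2 * π by ring,
          cos_add_two_pi])) (mE k) s5)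
      (fun k hk => g.n (avoid k hk _ _ (by
        congr 1; push_cast; linarith)) (mE (m + k)) s3)
      (fun k hk => g.n (avoid k hk _ _ (by
        congr 1; push_cast; linarith)) (mE (2 * m + k)) s4)
    have pos : 0 < 2 / cos x ^ 2 - 1 := by
      rw [sub_pos, lt_div_iff₀ (by positivity)]; nlinarith
    exact (arcosh_le_arcosh pos (lt_of_lt_of_le pos this)).mpr this

end Pool.Agent.P.MP_7578b2_co.All
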